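import Pool.Agent.Lib.TAO.Basic

/-!
# Weighted orders of polynomials as real valuations of `k(u)`
-/

set_option autoImplicit false

namespace Pool.Agent.TAO

open Pool.Agent.H15JM (RVal)

/-- A multiplicative order function on a domain extends to its field of fractions. -/
theorem exists_rval_fraction {R K : Type*} [CommRing R] [Field K] (ι : R →+* K)
    (hι : Function.Injective ι) (hfrac : ∀ z : K, ∃ a b : R, b ≠ 0 ∧ z = ι a / ι b) (f : R → ℝ)
    (hmul : ∀ a b, a ≠ 0 → b ≠ 0 → f (a * b) = f a + f b)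
    (hadd : ∀ a b, a ≠ 0 → b ≠ 0 → a + b ≠ 0 → min (f a) (f b) ≤ f (a + b)) :
    ∃ o : RVal K, ∀ a, a ≠ 0 → o (ι a) = f a := by
  classical
  have hne : ∀ {a : R}, a ≠ 0 → ι a ≠ 0 := fun {a} ha h => ha (hι (by rw [h, map_zero]))
  have hdom : ∀ {a b : R}, a ≠ 0 → b ≠ 0 → a * b ≠ 0 := by
    intro a b ha hb h
    have := mul_ne_zero (hne ha) (hne hb)
    rw [← map_mul, h, map_zero] at this
    exact this rfl
  choose p q hq hpq using hfrac
  have hp : ∀ z, z ≠ 0 → p z ≠ 0 := by
    intro z hz h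
    apply hz
    rw [hpq z, h, map_zero, zero_div]
  -- the key: independence of the fraction
  have key : ∀ z : K, z ≠ 0 → ∀ a b : R, a ≠ 0 → b ≠ 0 → z = ι a / ι b →
      f (p z) - f (q z) = f a - f b := by
    intro z hz a b ha hb h
    have h1 : ι (p z * b) = ι (a * q z) := by
      rw [map_mul, map_mul]
      have h2 : ι a / ι b = ι (p z) / ι (q z) := h.symm.trans (hpq z)
      rw [div_eq_div_iff (hne hb) (hne (hq z))] at h2
      exact h2.symm
    have h2 := hι h1
    have h3 := hmul (p z) b (hp z hz) hb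
    have h4 := hmul a (q z) ha (hq z)
    rw [h2] at h3
    linarith
  refine ⟨⟨fun z => f (p z) - f (q z), ?_, ?_⟩, ?_⟩
  · intro x y hx hy
    have h1 : x * y = ι (p x * p y) / ι (q x * q y) := by
      conv_lhs => rw [hpq x, hpq y]
      rw [map_mul, map_mul, div_mul_div_comm]
    rw [key (x * y) (mul_ne_zero hx hy) _ _ (hdom (hp x hx) (hp y hy)) (hdom (hq x) (hq y)) h1,
      hmul _ _ (hp x hx) (hp y hy), hmul _ _ (hq x) (hq y)]
    ring
  · intro x y hx hy hxy
    have h1 : x + y = ι (p x * q y + p y * q x) / ι (q x * q y) := by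
      conv_lhs => rw [hpq x, hpq y]
      rw [div_add_div _ _ (hne (hq x)) (hne (hq y)), map_add, map_mul, map_mul, map_mul]
      ring
    have h2 : p x * q y + p y * q x ≠ 0 := by
      intro h
      apply hxy
      rw [h1, h, map_zero, zero_div]
    rw [key (x + y) hxy _ _ h2 (hdom (hq x) (hq y)) h1]
    have h3 := hadd (p x * q y) (p y * q x) (hdom (hp x hx) (hq y)) (hdom (hp y hy) (hq x)) h2
    rw [hmul _ _ (hp x hx) (hq y), hmul _ _ (hp y hy) (hq x)] at h3
    rw [hmul _ _ (hq x) (hq y)]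
    have h4 : min (f (p x) - f (q x)) (f (p y) - f (q y)) =
        min (f (p x) + f (q y)) (f (p y) + f (q x)) - (f (q x) + f (q y)) := by
      rw [← min_sub_sub_right]
      congr 1 <;> ring
    rw [h4]
    linarith
  · intro a ha
    change f (p (ι a)) - f (q (ι a)) = f a
    by_cases h1 : (1 : R) = 0
    · exact absurd (by rw [← mul_one a, h1, mul_zero]) ha
    have h2 := key (ι a) (hne ha) a 1 ha h1 (by rw [map_one, div_one])
    have h3 := hmul a 1 ha h1
    rw [mul_one] at h3
    linarith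

section Weighted

variable {k σ : Type*} [Field k]

/-- The weighted order of a polynomial. -/
noncomputable def wo (w : σ → ℕ) (P : MvPolynomial σ k) : ℕ :=
  (MvPowerSeries.weightedOrder w (P : MvPowerSeries σ k)).toNat

theorem wo_spec (w : σ → ℕ) {P : MvPolynomial σ k} (hP : P ≠ 0) :
    ((wo w P : ℕ) : ℕ∞) = MvPowerSeries.weightedOrder w (P : MvPowerSeries σ k) := by
  rw [wo, ← MvPowerSeries.ne_zero_iff_weightedOrder_finite]
  intro h
  exact hP (MvPolynomial.coe_injective σ k (by rw [h, MvPolynomial.coe_zero]))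

theorem wo_mul (w : σ → ℕ) {P Q : MvPolynomial σ k} (hP : P ≠ 0) (hQ : Q ≠ 0) :
    wo w (P * Q) = wo w P + wo w Q := by
  have h1 := wo_spec w (mul_ne_zero hP hQ)
  rw [MvPolynomial.coe_mul, MvPowerSeries.weightedOrder_mul, ← wo_spec w hP, ← wo_spec w hQ] at h1
  exact_mod_cast h1

theorem wo_add (w : σ → ℕ) {P Q : MvPolynomial σ k} (hP : P ≠ 0) (hQ : Q ≠ 0) (hPQ : P + Q ≠ 0) :
    min (wo w P) (wo w Q) ≤ wo w (P + Q) := by
  have h1 := wo_spec w hPQ
  have h2 : min (MvPowerSeries.weightedOrder w (P : MvPowerSeries σ k))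
      (MvPowerSeries.weightedOrder w (Q : MvPowerSeries σ k)) ≤
      MvPowerSeries.weightedOrder w ((P : MvPowerSeries σ k) + (Q : MvPowerSeries σ k)) :=
    MvPowerSeries.min_weightedOrder_le_add w
  rw [← MvPolynomial.coe_add, ← h1, ← wo_spec w hP, ← wo_spec w hQ] at h2
  rcases le_total (wo w P) (wo w Q) with h3 | h3
  · rw [min_eq_left h3]
    rw [min_eq_left (by exact_mod_cast h3)] at h2
    exact_mod_cast h2
  · rw [min_eq_right h3]
    rw [min_eq_right (by exact_mod_cast h3)] at h2
    exact_mod_cast h2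

/-- The order is attained by some monomial. -/
theorem exists_wo (w : σ → ℕ) {P : MvPolynomial σ k} (hP : P ≠ 0) :
    ∃ d ∈ P.support, Finsupp.weight w d = wo w P := by
  obtain ⟨d, hd, hd'⟩ := MvPowerSeries.exists_coeff_ne_zero_and_weightedOrder w (wo_spec w hP)
  refine ⟨d, ?_, ?_⟩
  · rw [MvPolynomial.mem_support_iff]
    simpa using hd
  · rw [← wo_spec w hP] at hd'
    exact_mod_cast hd'

theorem wo_le (w : σ → ℕ) {P : MvPolynomial σ k} {d : σ →₀ ℕ} (hd : d ∈ P.support) :
    wo w P ≤ Finsupp.weight w d := by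
  have hP : P ≠ 0 := by rintro rfl; simp at hd
  have h1 : MvPowerSeries.coeff d (P : MvPowerSeries σ k) ≠ 0 := by
    rw [MvPolynomial.mem_support_iff] at hd
    simpa using hd
  have h2 := MvPowerSeries.weightedOrder_le w h1
  rw [← wo_spec w hP] at h2
  exact_mod_cast h2

theorem wo_monomial (w : σ → ℕ) (d : σ →₀ ℕ) {a : k} (ha : a ≠ 0) :
    wo w (MvPolynomial.monomial d a) = Finsupp.weight w d := by
  rw [wo, MvPolynomial.coe_monomial, MvPowerSeries.weightedOrder_monomial_of_ne_zero w ha]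
  simp

theorem wo_C (w : σ → ℕ) {a : k} (ha : a ≠ 0) : wo w (MvPolynomial.C a : MvPolynomial σ k) = 0 := by
  have := wo_monomial w 0 ha
  rw [map_zero] at this
  exact this

theorem wo_X (w : σ → ℕ) (i : σ) : wo w (MvPolynomial.X i : MvPolynomial σ k) = w i := by
  have := wo_monomial (k := k) w (Finsupp.single i 1) one_ne_zero
  rw [Finsupp.weight_single, one_smul] at this
  exact this

end Weighted

section Main

variable {k Ω σ : Type*} [Field k] [Field Ω] [Algebra k Ω]

/-- The embedding of the polynomial ring in a field containing the `u i`. -/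
noncomputable def toAdj (u : σ → Ω) (F : IntermediateField k Ω) (hu : ∀ i, u i ∈ F) :
    MvPolynomial σ k →ₐ[k] F :=
  MvPolynomial.aeval fun i => ⟨u i, hu i⟩

theorem coe_toAdj (u : σ → Ω) (F : IntermediateField k Ω) (hu : ∀ i, u i ∈ F)
    (P : MvPolynomial σ k) : ((toAdj u F hu P : F) : Ω) = MvPolynomial.aeval u P := by
  have h : (F.val.comp (toAdj u F hu)) = MvPolynomial.aeval u := by
    apply MvPolynomial.algHom_ext
    intro i
    simp [toAdj]
  exact DFunLike.congr_fun h P

theorem toAdj_injective {u : σ → Ω} (hi : AlgebraicIndependent k u) (F : IntermediateField k Ω)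
    (hu : ∀ i, u i ∈ F) : Function.Injective (toAdj (k := k) u F hu) := by
  intro P Q h
  apply hi
  rw [← coe_toAdj u F hu, ← coe_toAdj u F hu, h]

theorem exists_frac (u : σ → Ω) (F : IntermediateField k Ω) (hu : ∀ i, u i ∈ F)
    (hF : F = IntermediateField.adjoin k (Set.range u)) (z : F) :
    ∃ a b : MvPolynomial σ k, toAdj u F hu b ≠ 0 ∧ z = toAdj u F hu a / toAdj u F hu b := by
  have h1 := z.2
  have h2 : ∀ g : Ω, g ∈ Algebra.adjoin k (Set.range u) →
      ∃ a : MvPolynomial σ k, MvPolynomial.aeval u a = g := by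
    intro g hg
    rw [Algebra.adjoin_range_eq_range_aeval] at hg
    exact hg
  have h3 : (z : Ω) ∈ IntermediateField.adjoin k (Set.range u) := by rw [← hF]; exact h1
  rw [IntermediateField.mem_adjoin_iff_div] at h3
  obtain ⟨r, hr, s, hs, hz⟩ := h3
  obtain ⟨a, rfl⟩ := h2 r hr
  obtain ⟨b, rfl⟩ := h2 s hs
  by_cases hb : (MvPolynomial.aeval u b : Ω) = 0
  · refine ⟨0, 1, by simp, ?_⟩
    apply Subtype.ext
    rw [hz, hb]
    simp
  · refine ⟨a, b, ?_, ?_⟩
    · intro h
      apply hb
      rw [← coe_toAdj u F hu, h]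
      rfl
    · apply Subtype.ext
      rw [hz, ← coe_toAdj u F hu, ← coe_toAdj u F hu]
      rfl

/-- The weighted order as a real valuation of `k(u)`. -/
theorem exists_weighted {u : σ → Ω} (hi : AlgebraicIndependent k u) (F : IntermediateField k Ω)
    (hu : ∀ i, u i ∈ F) (hF : F = IntermediateField.adjoin k (Set.range u)) (w : σ → ℕ) :
    ∃ o : OVal ℝ F, ∀ P : MvPolynomial σ k, P ≠ 0 → o (toAdj u F hu P) = wo w P := by
  have hinj := toAdj_injective hi F hu
  suffices h : ∃ o : RVal F, ∀ P : MvPolynomial σ k, P ≠ 0 → o (toAdj u F hu P) = wo w P by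
    obtain ⟨o, ho⟩ := h
    exact ⟨ofR o, ho⟩
  refine exists_rval_fraction (toAdj u F hu).toRingHom hinj ?_ (fun P => (wo w P : ℝ)) ?_ ?_
  · intro z
    obtain ⟨a, b, hb, hz⟩ := exists_frac u F hu hF z
    refine ⟨a, b, ?_, hz⟩
    rintro rfl
    exact hb (map_zero _)
  · intro a b ha hb
    rw [wo_mul w ha hb]
    push_cast
    ring
  · intro a b ha hb hab
    exact_mod_cast wo_add w ha hb hab

end Main

end Pool.Agent.TAO
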