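import Pool.Agent.Lib.TAO.Basic

/-! # H1: extension of a real valuation to an algebraic extension -/

set_option autoImplicit false

namespace Pool.Agent.TAO

universe u w

namespace ExtVal

section

variable {K Ω : Type u} [Field K] [Field Ω] [Algebra K Ω] {𝕂 : Type w} [Field 𝕂] [LinearOrder 𝕂] [IsStrictOrderedRing 𝕂] (v : OVal 𝕂 K)

/-- The image in `Ω` of the valuation ring. -/
def ring : Subring Ω where
  carrier := {x | ∃ g : K, v.Ge 0 g ∧ algebraMap K Ω g = x}
  mul_mem' := by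
    rintro _ _ ⟨g, hg, rfl⟩ ⟨h, hh, rfl⟩
    exact ⟨g * h, by simpa using hg.mul hh, map_mul _ _ _⟩
  one_mem' := ⟨1, fun _ => v.map_one.ge, map_one _⟩
  add_mem' := by
    rintro _ _ ⟨g, hg, rfl⟩ ⟨h, hh, rfl⟩
    exact ⟨g + h, hg.add hh, map_add _ _ _⟩
  zero_mem' := ⟨0, OVal.Ge.zero, map_zero _⟩
  neg_mem' := by
    rintro _ ⟨g, hg, rfl⟩
    exact ⟨-g, hg.neg, map_neg _ _⟩

/-- The image of the maximal ideal. -/
def idl : Ideal (ring (Ω := Ω) v) where
  carrier := {x | ∃ g : K, (g ≠ 0 → 0 < v g) ∧ algebraMap K Ω g = x}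
  zero_mem' := ⟨0, fun h => absurd rfl h, map_zero _⟩
  add_mem' := by
    rintro ⟨x, hx⟩ ⟨y, hy⟩ ⟨g, hg, h1⟩ ⟨h, hh, h2⟩
    refine ⟨g + h, VPos.add (v := v) hg hh, ?_⟩
    rw [map_add, h1, h2]
    rfl
  smul_mem' := by
    rintro ⟨x, hx⟩ ⟨y, hy⟩ ⟨g, hg, h1⟩
    obtain ⟨c, hc, h2⟩ := hx
    refine ⟨c * g, VPos.mul' (v := v) hc hg, ?_⟩
    rw [map_mul, h1]
    exact congrArg (fun z : Ω => z * y) h2

theorem idl_ne_top : idl (Ω := Ω) v ≠ ⊤ := by
  intro h
  have h1 : (1 : ring (Ω := Ω) v) ∈ idl (Ω := Ω) v := by rw [h]; trivial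
  obtain ⟨g, hg, h2⟩ := h1
  have h3 : g = 1 := by
    apply (algebraMap K Ω).injective
    rw [h2, map_one]
    rfl
  rw [h3] at hg
  have h4 := hg one_ne_zero
  rw [v.map_one] at h4
  exact lt_irrefl _ h4

/-- A valuation of `Ω` compatible with `v`. -/
theorem exists_val : ∃ B : ValuationSubring Ω,
    (∀ g : K, g ≠ 0 → 0 ≤ v g → B.valuation (algebraMap K Ω g) ≤ 1) ∧
    (∀ g : K, g ≠ 0 → 0 < v g → B.valuation (algebraMap K Ω g) < 1) := by
  obtain ⟨B, hB1, hB2⟩ := Ideal.image_subset_nonunits_valuationSubring (idl (Ω := Ω) v)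
    (idl_ne_top v)
  refine ⟨B, fun g hg h => ?_, fun g hg h => ?_⟩
  · rw [ValuationSubring.valuation_le_one_iff]
    exact hB1 ⟨g, fun _ => h, rfl⟩
  · rw [← ValuationSubring.mem_nonunits_iff]
    exact hB2 ⟨⟨algebraMap K Ω g, ⟨g, fun _ => h.le, rfl⟩⟩, ⟨g, fun _ => h, rfl⟩, rfl⟩

end

variable {K Ω : Type u} [Field K] [Field Ω] [Algebra K Ω] {𝕂 : Type w} [Field 𝕂] [LinearOrder 𝕂] [IsStrictOrderedRing 𝕂]
  {v : OVal 𝕂 K} {B : ValuationSubring Ω}

theorem ne (g : K) (hg : g ≠ 0) : algebraMap K Ω g ≠ 0 := by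
  rwa [Ne, FaithfulSMul.algebraMap_eq_zero_iff]

theorem eq_one (hB' : ∀ g : K, g ≠ 0 → 0 < v g → B.valuation (algebraMap K Ω g) < 1)
    {g : K} (hg : g ≠ 0) (h : B.valuation (algebraMap K Ω g) = 1) : v g = 0 := by
  rcases lt_trichotomy (v g) 0 with h1 | h1 | h1
  · exfalso
    have h2 := hB' g⁻¹ (inv_ne_zero hg) (by rw [v.map_inv hg]; linarith)
    rw [map_inv₀, map_inv₀, h, inv_one] at h2
    exact lt_irrefl _ h2
  · exact h1
  · exfalso
    have h2 := hB' g hg h1
    rw [h] at h2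
    exact lt_irrefl _ h2

theorem le_one (hB' : ∀ g : K, g ≠ 0 → 0 < v g → B.valuation (algebraMap K Ω g) < 1)
    {g : K} (hg : g ≠ 0) (h : B.valuation (algebraMap K Ω g) ≤ 1) : 0 ≤ v g := by
  by_contra h1
  push Not at h1
  have h2 := hB' g⁻¹ (inv_ne_zero hg) (by rw [v.map_inv hg]; linarith)
  rw [map_inv₀, map_inv₀] at h2
  have h3 : B.valuation (algebraMap K Ω g) ≠ 0 := by
    rw [Ne, map_eq_zero]
    exact ne g hg
  rw [inv_lt_one₀ (zero_lt_iff.2 h3)] at h2
  exact absurd h2 (not_lt.2 h)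

/-- The value of every element is torsion modulo the values of `K`. -/
theorem exists_pow [Algebra.IsAlgebraic K Ω] (B : ValuationSubring Ω) (x : Ω) (hx : x ≠ 0) :
    ∃ n : ℕ, 0 < n ∧ ∃ a : K, a ≠ 0 ∧ B.valuation x ^ n = B.valuation (algebraMap K Ω a) := by
  obtain ⟨P, hP0, hP⟩ := Algebra.IsAlgebraic.isAlgebraic (R := K) x
  set f : ℕ → Ω := fun i => algebraMap K Ω (P.coeff i) * x ^ i with hf
  have hsum : ∑ i ∈ P.support, f i = 0 := by
    rw [← hP, Polynomial.aeval_eq_sum_range' (n := P.natDegree + 1) (by omega)]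
    rw [← Finset.sum_subset (s₁ := P.support) (s₂ := Finset.range (P.natDegree + 1))]
    · refine Finset.sum_congr rfl fun i _ => ?_
      rw [Algebra.smul_def]
    · exact Polynomial.supp_subset_range (by omega)
    · intro i _ hi
      rw [Polynomial.notMem_support_iff] at hi
      rw [hi, zero_smul]
  have hne : ∀ i ∈ P.support, B.valuation (f i) ≠ 0 := by
    intro i hi
    rw [Ne, map_eq_zero]
    exact mul_ne_zero (ne _ (Polynomial.mem_support_iff.1 hi)) (pow_ne_zero _ hx)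
  obtain ⟨i, hi, hmax⟩ := Finset.exists_max_image P.support (fun i => B.valuation (f i))
    (Polynomial.support_nonempty.2 hP0)
  -- a second term of maximal value
  obtain ⟨j, hj, hji, hv⟩ : ∃ j ∈ P.support, j ≠ i ∧ B.valuation (f j) = B.valuation (f i) := by
    by_contra hcon
    push Not at hcon
    have h1 : B.valuation (∑ j ∈ P.support.erase i, f j) < B.valuation (f i) := by
      refine Valuation.map_sum_lt _ (hne i hi) fun j hj => ?_
      rw [Finset.mem_erase] at hj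
      exact lt_of_le_of_ne (hmax j hj.2) (hcon j hj.2 hj.1)
    rw [← Finset.add_sum_erase _ _ hi] at hsum
    have h2 := Valuation.map_add_eq_of_lt_right B.valuation h1
    rw [add_comm, hsum, map_zero] at h2
    exact hne i hi h2.symm
  have key : ∀ i j, i ∈ P.support → j ∈ P.support → i < j →
      B.valuation (f j) = B.valuation (f i) → ∃ n : ℕ, 0 < n ∧ ∃ a : K, a ≠ 0 ∧
        B.valuation x ^ n = B.valuation (algebraMap K Ω a) := by
    intro i j hi hj hij h
    refine ⟨j - i, by omega, P.coeff i / P.coeff j,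
      div_ne_zero (Polynomial.mem_support_iff.1 hi) (Polynomial.mem_support_iff.1 hj), ?_⟩
    have hx' : B.valuation x ≠ 0 := by rwa [Ne, map_eq_zero]
    have hj' : B.valuation (algebraMap K Ω (P.coeff j)) ≠ 0 := by
      rw [Ne, map_eq_zero]
      exact ne _ (Polynomial.mem_support_iff.1 hj)
    rw [hf] at h
    simp only [map_mul, map_pow] at h
    rw [map_div₀, map_div₀, eq_div_iff hj', mul_comm]
    have h3 : B.valuation x ^ j = B.valuation x ^ (j - i) * B.valuation x ^ i := by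
      rw [← pow_add]
      congr 1
      omega
    rw [h3, ← mul_assoc] at h
    exact mul_right_cancel₀ (pow_ne_zero i hx') h
  rcases lt_or_gt_of_ne hji with h | h
  · exact key j i hj hi h hv.symm
  · exact key i j hi hj h hv

variable [Algebra.IsAlgebraic K Ω]

open Classical in
/-- The extended valuation. -/
noncomputable def ext (v : OVal 𝕂 K) (B : ValuationSubring Ω) (x : Ω) : 𝕂 :=
  if hx : x ≠ 0 then
    v (exists_pow (K := K) B x hx).choose_spec.2.choose / (exists_pow (K := K) B x hx).choose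
  else 0

omit [Algebra.IsAlgebraic K Ω] in
theorem spec_aux (hB' : ∀ g : K, g ≠ 0 → 0 < v g → B.valuation (algebraMap K Ω g) < 1)
    {x : Ω} {n m : ℕ} (hn : 0 < n) (hm : 0 < m) {a b : K} (ha : a ≠ 0)
    (hb : b ≠ 0) (h1 : B.valuation x ^ n = B.valuation (algebraMap K Ω a))
    (h2 : B.valuation x ^ m = B.valuation (algebraMap K Ω b)) : v a / n = v b / m := by
  have h3 : B.valuation (algebraMap K Ω (a ^ m / b ^ n)) = 1 := by
    rw [map_div₀, map_div₀, map_pow, map_pow, map_pow, map_pow, ← h1, ← h2, ← pow_mul, ← pow_mul,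
      mul_comm m n]
    refine div_self ?_
    rw [pow_mul, h1]
    refine pow_ne_zero _ ?_
    rw [Ne, map_eq_zero]
    exact ne a ha
  have h4 := eq_one hB' (div_ne_zero (pow_ne_zero _ ha) (pow_ne_zero _ hb)) h3
  rw [v.map_div (pow_ne_zero _ ha) (pow_ne_zero _ hb), v.map_pow ha, v.map_pow hb] at h4
  have hn' : (0 : 𝕂) < n := by exact_mod_cast hn
  have hm' : (0 : 𝕂) < m := by exact_mod_cast hm
  rw [div_eq_div_iff hn'.ne' hm'.ne']
  linarith

theorem ext_spec (hB' : ∀ g : K, g ≠ 0 → 0 < v g → B.valuation (algebraMap K Ω g) < 1)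
    {x : Ω} (hx : x ≠ 0) {n : ℕ} (hn : 0 < n) {a : K} (ha : a ≠ 0)
    (h : B.valuation x ^ n = B.valuation (algebraMap K Ω a)) : ext v B x = v a / n := by
  unfold ext
  rw [dif_pos hx]
  have h1 := (exists_pow (K := K) B x hx).choose_spec
  have h2 := h1.2.choose_spec
  exact spec_aux hB' h1.1 hn h2.1 ha h2.2 h

theorem ext_mul (hB' : ∀ g : K, g ≠ 0 → 0 < v g → B.valuation (algebraMap K Ω g) < 1)
    {x y : Ω} (hx : x ≠ 0) (hy : y ≠ 0) : ext v B (x * y) = ext v B x + ext v B y := by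
  obtain ⟨n, hn, a, ha, h1⟩ := exists_pow (K := K) B x hx
  obtain ⟨m, hm, b, hb, h2⟩ := exists_pow (K := K) B y hy
  rw [ext_spec hB' hx hn ha h1, ext_spec hB' hy hm hb h2]
  have h3 : B.valuation (x * y) ^ (n * m) = B.valuation (algebraMap K Ω (a ^ m * b ^ n)) := by
    have h4 : B.valuation (x * y) ^ (n * m) = (B.valuation x ^ n) ^ m * (B.valuation y ^ m) ^ n := by
      rw [map_mul, mul_pow, pow_mul, mul_comm n m, pow_mul]
    rw [h4, h1, h2, map_mul, map_mul, map_pow, map_pow, map_pow, map_pow]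
  rw [ext_spec hB' (mul_ne_zero hx hy) (Nat.mul_pos hn hm)
    (mul_ne_zero (pow_ne_zero _ ha) (pow_ne_zero _ hb)) h3,
    v.map_mul (pow_ne_zero _ ha) (pow_ne_zero _ hb), v.map_pow ha, v.map_pow hb]
  have hn' : (0 : 𝕂) < n := by exact_mod_cast hn
  have hm' : (0 : 𝕂) < m := by exact_mod_cast hm
  push_cast
  field_simp

theorem ext_anti (hB' : ∀ g : K, g ≠ 0 → 0 < v g → B.valuation (algebraMap K Ω g) < 1)
    {x z : Ω} (hx : x ≠ 0) (hz : z ≠ 0) (h : B.valuation z ≤ B.valuation x) :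
    ext v B x ≤ ext v B z := by
  obtain ⟨n, hn, a, ha, h1⟩ := exists_pow (K := K) B x hx
  obtain ⟨m, hm, b, hb, h2⟩ := exists_pow (K := K) B z hz
  rw [ext_spec hB' hx hn ha h1, ext_spec hB' hz hm hb h2]
  have h3 : B.valuation (algebraMap K Ω (b ^ n / a ^ m)) ≤ 1 := by
    have h5 : B.valuation (algebraMap K Ω a) ≠ 0 := by
      rw [Ne, map_eq_zero]
      exact ne a ha
    rw [map_div₀, map_div₀, map_pow, map_pow, map_pow, map_pow, div_le_one₀
      (pow_pos (zero_lt_iff.2 h5) _), ← h1, ← h2, ← pow_mul, ← pow_mul, mul_comm m n]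
    exact pow_le_pow_left₀ zero_le h _
  have h4 := le_one hB' (div_ne_zero (pow_ne_zero _ hb) (pow_ne_zero _ ha)) h3
  rw [v.map_div (pow_ne_zero _ hb) (pow_ne_zero _ ha), v.map_pow ha, v.map_pow hb] at h4
  have hn' : (0 : 𝕂) < n := by exact_mod_cast hn
  have hm' : (0 : 𝕂) < m := by exact_mod_cast hm
  rw [div_le_div_iff₀ hn' hm']
  linarith

end ExtVal

open ExtVal in
/-- A valuation extends to every algebraic extension. -/
theorem exists_extValO (K Ω : Type u) [Field K] [Field Ω] [Algebra K Ω]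
    [Algebra.IsAlgebraic K Ω] {𝕂 : Type w} [Field 𝕂] [LinearOrder 𝕂] [IsStrictOrderedRing 𝕂]
    (v : OVal 𝕂 K) : ∃ w : OVal 𝕂 Ω, ∀ g : K, g ≠ 0 → w (algebraMap K Ω g) = v g := by
  obtain ⟨B, -, hB'⟩ := exists_val (Ω := Ω) v
  refine ⟨⟨ext v B, fun x y hx hy => ext_mul hB' hx hy, fun x y hx hy hxy => ?_⟩,
    fun g hg => ?_⟩
  · rcases le_total (B.valuation x) (B.valuation y) with h | h
    · have h1 : B.valuation (x + y) ≤ B.valuation y :=
        (Valuation.map_add B.valuation x y).trans (max_le h le_rfl)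
      exact (min_le_right _ _).trans (ext_anti hB' hy hxy h1)
    · have h1 : B.valuation (x + y) ≤ B.valuation x :=
        (Valuation.map_add B.valuation x y).trans (max_le le_rfl h)
      exact (min_le_left _ _).trans (ext_anti hB' hx hxy h1)
  · change ext v B (algebraMap K Ω g) = v g
    rw [ext_spec hB' (ne g hg) one_pos hg (pow_one _)]
    simp

end Pool.Agent.TAO
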