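import Pool.Agent.Lib.TAO.Cone
import Pool.Agent.Lib.TAO.VB
import Pool.Agent.Lib.ALB.Kaehler

/-!
# Toric Albanese: existence of toric data with independent differentials

`exists_TD`: a generating space of a field of rational rank `r` gives toric data `TD` whose
monomials `x_i` have independent differentials.
-/

set_option autoImplicit false
set_option linter.unusedSectionVars false

open Submodule Module

namespace Pool.Agent.TAO

open Pool.Agent.H15JM (RVal)

universe u w

/-- A finite family of reals of rational rank `r` generates a lattice of rank `r`. -/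
theorem exists_lattice {𝕂 : Type*} [Field 𝕂] [LinearOrder 𝕂] [IsStrictOrderedRing 𝕂] {ι : Type} [Fintype ι] (ν : ι → 𝕂) {r : ℕ}
    (hr : finrank ℚ (span ℚ (Set.range ν)) = r) :
    ∃ (lam : Fin r → 𝕂) (a : ι → Fin r → ℤ) (α : Fin r → ι → ℤ),
      LinearIndependent ℚ lam ∧ (∀ j, ν j = ∑ i, (a j i : 𝕂) * lam i) ∧
      ∀ i, ∑ j, (α i j : 𝕂) * ν j = lam i := by
  classical
  obtain ⟨Λ, hΛ⟩ : ∃ Λ : Submodule ℤ 𝕂, Λ = span ℤ (Set.range ν) := ⟨_, rfl⟩
  have hfin : Module.Finite ℤ Λ := by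
    rw [hΛ]
    exact Module.Finite.span_of_finite ℤ (Set.finite_range ν)
  have hfree : Module.Free ℤ Λ := inferInstance
  obtain ⟨m, hm⟩ : ∃ m, m = finrank ℤ Λ := ⟨_, rfl⟩
  obtain ⟨B⟩ : Nonempty (Basis (Fin m) ℤ Λ) := by
    rw [hm]; exact ⟨Module.finBasis ℤ Λ⟩
  have hindZ : LinearIndependent ℤ (fun i => (B i : 𝕂)) := by
    have h1 := B.linearIndependent.map' Λ.subtype (ker_subtype Λ)
    exact h1
  have hindQ : LinearIndependent ℚ (fun i => (B i : 𝕂)) :=
    (LinearIndependent.iff_fractionRing ℤ ℚ).1 hindZ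
  have hexp : ∀ y ∈ Λ, ∃ a : Fin m → ℤ, y = ∑ i, (a i : 𝕂) * (B i : 𝕂) := by
    intro y hy
    refine ⟨fun i => B.repr ⟨y, hy⟩ i, ?_⟩
    have h1 := B.sum_repr ⟨y, hy⟩
    have h2 := congrArg (fun z : Λ => (z : 𝕂)) h1
    simp only [] at h2
    rw [AddSubmonoidClass.coe_finsetSum] at h2
    have h3 : ∑ i, ((B.repr ⟨y, hy⟩ i : ℤ) : 𝕂) * (B i : 𝕂) = y := by
      refine Eq.trans (Finset.sum_congr rfl fun i _ => ?_) h2
      rw [coe_smul, zsmul_eq_mul]
    exact h3.symm
  have hνΛ : ∀ j, ν j ∈ Λ := fun j => by rw [hΛ]; exact subset_span ⟨j, rfl⟩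
  have hspan : span ℚ (Set.range ν) = span ℚ (Set.range fun i => (B i : 𝕂)) := by
    refine le_antisymm (span_le.2 ?_) (span_le.2 ?_)
    · rintro _ ⟨j, rfl⟩
      obtain ⟨a, ha⟩ := hexp _ (hνΛ j)
      rw [ha]
      refine Submodule.sum_mem _ fun i _ => ?_
      have h0 : (B i : 𝕂) ∈ span ℚ (Set.range fun i => (B i : 𝕂)) := subset_span ⟨i, rfl⟩
      have h1 := Submodule.smul_mem _ (a i : ℚ) h0
      rw [Rat.smul_def] at h1
      push_cast at h1
      exact h1
    · rintro _ ⟨i, rfl⟩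
      have h1 : (B i : 𝕂) ∈ span ℤ (Set.range ν) := hΛ.le (B i).2
      have h2 : span ℤ (Set.range ν) ≤ (span ℚ (Set.range ν)).restrictScalars ℤ :=
        span_le.2 fun y hy => subset_span hy
      exact h2 h1
  have hmr : m = r := by
    rw [← hr, hspan, finrank_span_eq_card hindQ, Fintype.card_fin]
  subst hmr
  choose a ha using fun j => hexp _ (hνΛ j)
  have hcomb : ∀ i, ∃ α : ι → ℤ, ∑ j, (α j : 𝕂) * ν j = (B i : 𝕂) := by
    intro i
    have h1 : (B i : 𝕂) ∈ span ℤ (Set.range ν) := hΛ.le (B i).2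
    rw [mem_span_range_iff_exists_fun] at h1
    obtain ⟨c, hc⟩ := h1
    refine ⟨c, ?_⟩
    rw [← hc]
    exact Finset.sum_congr rfl fun j _ => by rw [zsmul_eq_mul]
  choose α hα using hcomb
  exact ⟨fun i => (B i : 𝕂), a, α, hindQ, ha, hα⟩

/-- Lemma L: `r` vectors can be made independent by adding elements of a subgroup `K`. -/
theorem exists_indep {E M : Type*} [Field E] [AddCommGroup M] [Module E M] [FiniteDimensional E M]
    (K : AddSubgroup M) {r : ℕ} (u : Fin r → M)
    (hspan : span E ((K : Set M) ∪ Set.range u) = ⊤) (hr : r ≤ finrank E M) :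
    ∃ κ : Fin r → M, (∀ i, κ i ∈ K) ∧ LinearIndependent E fun i => u i + κ i := by
  classical
  obtain ⟨F, hF⟩ : ∃ F : {κ : Fin r → M // ∀ i, κ i ∈ K} → ℕ,
      F = fun κ => finrank E (span E (Set.range fun i => u i + κ.1 i)) := ⟨_, rfl⟩
  have hFr : ∀ κ, F κ ≤ finrank E M := fun κ => by rw [hF]; exact Submodule.finrank_le _
  have : Nonempty {κ : Fin r → M // ∀ i, κ i ∈ K} := ⟨⟨fun _ => 0, fun _ => K.zero_mem⟩⟩
  obtain ⟨κ, hκ⟩ : ∃ κ, ∀ κ', F κ' ≤ F κ := by
    obtain ⟨κ, hκ⟩ : ∃ κ, ∀ κ', ¬ (finrank E M - F κ' < finrank E M - F κ) :=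
      ⟨Function.argmin fun κ => finrank E M - F κ, fun κ' =>
        Function.not_lt_argmin (fun κ => finrank E M - F κ) κ'⟩
    refine ⟨κ, fun κ' => ?_⟩
    have h1 := hκ κ'
    have h2 := hFr κ
    have h3 := hFr κ'
    omega
  refine ⟨κ.1, κ.2, ?_⟩
  by_contra hdep
  obtain ⟨S, hS⟩ : ∃ S, S = span E (Set.range fun i => u i + κ.1 i) := ⟨_, rfl⟩
  have hlt : finrank E S < r := by
    have h1 : finrank E S ≤ r := by
      rw [hS]
      exact (finrank_range_le_card (R := E) (fun i => u i + κ.1 i)).trans (by simp)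
    refine lt_of_le_of_ne h1 fun h2 => hdep ?_
    rw [linearIndependent_iff_card_eq_finrank_span, Fintype.card_fin, Set.finrank, ← hS, h2]
  obtain ⟨i₀, hi₀⟩ : ∃ i₀, u i₀ + κ.1 i₀ ∈
      span E ((fun i => u i + κ.1 i) '' (Set.univ \ {i₀})) := by
    rw [linearIndependent_iff_notMem_span] at hdep
    push Not at hdep
    exact hdep
  have hSle : S ≤ span E ((fun i => u i + κ.1 i) '' (Set.univ \ {i₀})) := by
    rw [hS]
    refine span_le.2 ?_
    rintro _ ⟨i, rfl⟩
    by_cases h : i = i₀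
    · rw [h]; exact hi₀
    · exact subset_span ⟨i, ⟨trivial, h⟩, rfl⟩
  have hK : ∀ c ∈ K, c ∈ S := by
    intro c hc
    obtain ⟨κ', hκ'⟩ : ∃ κ' : {κ : Fin r → M // ∀ i, κ i ∈ K},
        κ'.1 = fun i => if i = i₀ then κ.1 i + c else κ.1 i := by
      refine ⟨⟨fun i => if i = i₀ then κ.1 i + c else κ.1 i, fun i => ?_⟩, rfl⟩
      by_cases h : i = i₀
      · simp only [h, if_true]; exact K.add_mem (κ.2 _) hc
      · simp only [h, if_false]; exact κ.2 _
    have h1 : S ≤ span E (Set.range fun i => u i + κ'.1 i) := by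
      refine hSle.trans (span_le.2 ?_)
      rintro _ ⟨i, ⟨-, hi⟩, rfl⟩
      refine subset_span ⟨i, ?_⟩
      have hi' : i ≠ i₀ := hi
      simp only [hκ', hi', if_false]
    have h2 : S = span E (Set.range fun i => u i + κ'.1 i) := by
      refine Submodule.eq_of_le_of_finrank_le h1 ?_
      have h3 := hκ κ'
      rw [hF] at h3
      rw [hS]
      exact h3
    have h3 : u i₀ + κ'.1 i₀ ∈ S := by rw [h2]; exact subset_span ⟨i₀, rfl⟩
    have h4 : u i₀ + κ.1 i₀ ∈ S := by rw [hS]; exact subset_span ⟨i₀, rfl⟩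
    have h5 : c = (u i₀ + κ'.1 i₀) - (u i₀ + κ.1 i₀) := by
      simp only [hκ', if_true]
      abel
    rw [h5]
    exact S.sub_mem h3 h4
  have htop : S = ⊤ := by
    rw [← top_le_iff, ← hspan]
    refine span_le.2 ?_
    rintro x (hx | ⟨i, rfl⟩)
    · exact hK x hx
    · have h4 : u i + κ.1 i ∈ S := by rw [hS]; exact subset_span ⟨i, rfl⟩
      have h5 : u i = (u i + κ.1 i) - κ.1 i := by abel
      change u i ∈ S
      rw [h5]
      exact S.sub_mem h4 (hK _ (κ.2 i))
  rw [htop, finrank_top] at hlt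
  omega


section OneUnits

variable {k Ω : Type u} [Field k] [Field Ω] [Algebra k Ω]

/-- The units with residue one. -/
def oneUnits {𝕂 : Type w} [Field 𝕂] [LinearOrder 𝕂] [IsStrictOrderedRing 𝕂] (v : OVal 𝕂 Ω) : Subgroup Ωˣ where
  carrier := {u | VPos v ((u : Ω) - 1)}
  one_mem' := fun h => absurd (by simp) h
  mul_mem' := by
    intro a b ha hb
    change VPos v (((a * b : Ωˣ) : Ω) - 1)
    have h1 : ((a * b : Ωˣ) : Ω) - 1 = ((a : Ω) - 1) * ((b : Ω) - 1) + ((a : Ω) - 1) +
        ((b : Ω) - 1) := by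
      rw [Units.val_mul]; ring
    rw [h1]
    exact ((ha.mul hb.ge).add ha).add hb
  inv_mem' := by
    intro a ha
    change VPos v (((a⁻¹ : Ωˣ) : Ω) - 1)
    have ha' : VPos v ((a : Ω) - 1) := ha
    have h1 : ((a⁻¹ : Ωˣ) : Ω) - 1 = -(((a : Ω) - 1) * (a : Ω)⁻¹) := by
      rw [Units.val_inv_eq_inv_val, sub_mul, mul_inv_cancel₀ a.ne_zero]; ring
    rw [h1]
    refine (ha'.mul fun _ => ?_).neg
    have h2 : v (a : Ω) = 0 := by
      by_cases h3 : (a : Ω) - 1 = 0
      · rw [sub_eq_zero.1 h3]; exact v.map_one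
      · have h4 := v.add_of_lt one_ne_zero h3 (by rw [v.map_one]; exact ha' h3)
        rw [add_sub_cancel] at h4
        rw [h4.2, v.map_one]
    rw [v.map_inv a.ne_zero, h2, neg_zero]

theorem vpos_prod {𝕂 : Type w} [Field 𝕂] [LinearOrder 𝕂] [IsStrictOrderedRing 𝕂] {v : OVal 𝕂 Ω} {ι : Type*} (s : Finset ι) (b : ι → Ω) (hb : ∀ j, b j ≠ 0)
    (h : ∀ j, VPos v (b j - 1)) (α : ι → ℤ) : VPos v (∏ j ∈ s, b j ^ α j - 1) := by
  have h1 : (∏ j ∈ s, (Units.mk0 (b j) (hb j)) ^ α j) ∈ oneUnits v :=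
    Subgroup.prod_mem _ fun j _ => Subgroup.zpow_mem _ (h j) _
  have h2 : VPos v (((∏ j ∈ s, (Units.mk0 (b j) (hb j)) ^ α j : Ωˣ) : Ω) - 1) := h1
  rw [Units.coe_prod] at h2
  have h3 : ∀ j, (((Units.mk0 (b j) (hb j)) ^ α j : Ωˣ) : Ω) = b j ^ α j := fun j => by
    rw [Units.val_zpow_eq_zpow_val, Units.val_mk0]
  rwa [Finset.prod_congr rfl fun j _ => h3 j] at h2

/-- A constant with residue one is one. -/
theorem const_eq_one {𝕂 : Type w} [Field 𝕂] [LinearOrder 𝕂] [IsStrictOrderedRing 𝕂] {v : OVal 𝕂 Ω} (htriv : ∀ c : k, c ≠ 0 → v (algebraMap k Ω c) = 0) {c : k}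
    (h : VPos v (algebraMap k Ω c - 1)) : c = 1 := by
  by_contra hc
  have h1 : algebraMap k Ω c - 1 = algebraMap k Ω (c - 1) := by rw [map_sub, map_one]
  rw [h1] at h
  have h2 : c - 1 ≠ 0 := sub_ne_zero.2 hc
  have h3 := h ((map_ne_zero _).2 h2)
  rw [htriv _ h2] at h3
  exact lt_irrefl _ h3

end OneUnits

section Build

variable {k Ω : Type u} [Field k] [Field Ω] [Algebra k Ω] {𝕂 : Type w} [Field 𝕂] [LinearOrder 𝕂] [IsStrictOrderedRing 𝕂] {v : OVal 𝕂 Ω}

theorem v_prod_zpow {ι : Type} [Fintype ι] {g : ι → Ω} (hg : ∀ j, g j ≠ 0) (α : ι → ℤ) :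
    v (∏ j, g j ^ α j) = ∑ j, (α j : 𝕂) * v (g j) := by
  rw [v.map_prod _ _ fun j _ => zpow_ne_zero _ (hg j)]
  exact Finset.sum_congr rfl fun j _ => v.map_zpow (hg j) _

theorem int_eq_of_ind {r : ℕ} {lam : Fin r → 𝕂} (hl : LinearIndependent ℚ lam) {a b : Fin r → ℤ}
    (h : ∑ i, (a i : 𝕂) * lam i = ∑ i, (b i : 𝕂) * lam i) : a = b := by
  rw [Fintype.linearIndependent_iff] at hl
  have h1 := hl (fun i => (a i : ℚ) - b i) (by
    have h2 : ∀ i, ((a i : ℚ) - b i) • lam i = (a i : 𝕂) * lam i - (b i : 𝕂) * lam i := by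
      intro i
      rw [Rat.smul_def]
      push_cast
      ring
    rw [Finset.sum_congr rfl fun i _ => h2 i, Finset.sum_sub_distrib, h, sub_self])
  funext i
  have h2 := sub_eq_zero.1 (h1 i)
  exact_mod_cast h2

theorem mx_sum_smul {r : ℕ} {ι : Type} [Fintype ι] {x : Fin r → Ω} (hx : ∀ i, x i ≠ 0)
    (a : ι → Fin r → ℤ) (α : ι → ℤ) : mx x (∑ j, α j • a j) = ∏ j, mx x (a j) ^ α j := by
  unfold mx
  simp only [← Finset.prod_zpow]
  rw [Finset.prod_comm]
  refine Finset.prod_congr rfl fun i _ => ?_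
  rw [Finset.sum_apply]
  have h1 : ∀ s : Finset ι, x i ^ (∑ j ∈ s, (α j • a j) i) = ∏ j ∈ s, (x i ^ a j i) ^ α j := by
    classical
    intro s
    induction s using Finset.induction_on with
    | empty => simp
    | insert j s hj ih =>
      rw [Finset.sum_insert hj, Finset.prod_insert hj, zpow_add₀ (hx i), ih, Pi.smul_apply,
        smul_eq_mul, mul_comm (α j), zpow_mul]
  exact h1 Finset.univ

/-- Toric data from a family with different values. -/
theorem exists_TD_of_lattice (htriv : ∀ c : k, c ≠ 0 → v (algebraMap k Ω c) = 0)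
    (hres : ∀ g : Ω, g ≠ 0 → v g = 0 → ∃ c : k, c ≠ 0 ∧ VPos v (g - algebraMap k Ω c))
    {r : ℕ} {ι : Type} [Fintype ι] {g : ι → Ω} (hg : ∀ j, g j ≠ 0)
    (hinj : Function.Injective fun j => v (g j)) (o : ι) (ho : g o = 1)
    {lam : Fin r → 𝕂} (hl : LinearIndependent ℚ lam) {a : ι → Fin r → ℤ}
    (ha : ∀ j, v (g j) = ∑ i, (a j i : 𝕂) * lam i) {α : Fin r → ι → ℤ}
    (hα : ∀ i, ∑ j, (α i j : 𝕂) * v (g j) = lam i) :
    ∃ (T : TD k v r ι) (c : ι → k), (∀ i, T.x i = ∏ j, g j ^ α i j) ∧ (∀ j, c j ≠ 0) ∧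
      ∀ j, g j = c j • (T.b j * mx T.x (T.a j)) := by
  classical
  obtain ⟨x, hx⟩ : ∃ x : Fin r → Ω, x = fun i => ∏ j, g j ^ α i j := ⟨_, rfl⟩
  have hx' : ∀ i, x i = ∏ j, g j ^ α i j := fun i => by rw [hx]
  have hx0 : ∀ i, x i ≠ 0 := fun i => by
    rw [hx']; exact Finset.prod_ne_zero_iff.2 fun j _ => zpow_ne_zero _ (hg j)
  have hvx : ∀ i, v (x i) = lam i := fun i => by rw [hx', v_prod_zpow hg, hα]
  have hvx' : (fun i => v (x i)) = lam := funext hvx
  obtain ⟨b', hb'⟩ : ∃ b' : ι → Ω, b' = fun j => g j / mx x (a j) := ⟨_, rfl⟩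
  have hb'0 : ∀ j, b' j ≠ 0 := fun j => by
    rw [hb']; exact div_ne_zero (hg j) (mx_ne hx0 _)
  have hvb' : ∀ j, v (b' j) = 0 := by
    intro j
    rw [hb']
    change v (g j / mx x (a j)) = 0
    rw [v.map_div (hg j) (mx_ne hx0 _), v_mx hx0, ha j]
    simp only [hvx]
    exact sub_self _
  choose c hc0 hc using fun j => hres (b' j) (hb'0 j) (hvb' j)
  have hcΩ : ∀ j, algebraMap k Ω (c j) ≠ 0 := fun j => by simpa using hc0 j
  obtain ⟨b, hb⟩ : ∃ b : ι → Ω, b = fun j => (algebraMap k Ω (c j))⁻¹ * b' j := ⟨_, rfl⟩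
  have hb_ap : ∀ j, b j = (algebraMap k Ω (c j))⁻¹ * b' j := fun j => by rw [hb]
  have hb0 : ∀ j, b j ≠ 0 := fun j => by
    rw [hb_ap]; exact mul_ne_zero (inv_ne_zero (hcΩ j)) (hb'0 j)
  have hbres : ∀ j, VPos v (b j - 1) := by
    intro j
    have h1 : b j - 1 = (b' j - algebraMap k Ω (c j)) * (algebraMap k Ω (c j))⁻¹ := by
      rw [hb_ap, sub_mul, mul_inv_cancel₀ (hcΩ j), mul_comm]
    rw [h1]
    refine (hc j).mul fun _ => ?_
    rw [v.map_inv (hcΩ j), htriv _ (hc0 j), neg_zero]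
  have hlat : ∀ i, ∑ j, α i j • a j = Pi.single i 1 := by
    intro i
    refine int_eq_of_ind hl ?_
    have h1 : ∀ l, (((∑ j, α i j • a j) l : ℤ) : 𝕂) = ∑ j, (α i j : 𝕂) * (a j l : 𝕂) := by
      intro l
      rw [Finset.sum_apply]
      push_cast
      exact Finset.sum_congr rfl fun j _ => by
        rw [Pi.smul_apply, smul_eq_mul]; push_cast; ring
    simp only [h1]
    calc ∑ l, (∑ j, (α i j : 𝕂) * (a j l : 𝕂)) * lam l
        = ∑ j, (α i j : 𝕂) * v (g j) := by
          simp only [ha, Finset.sum_mul, Finset.mul_sum]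
          rw [Finset.sum_comm]
          refine Finset.sum_congr rfl fun j _ => Finset.sum_congr rfl fun l _ => by ring
      _ = lam i := hα i
      _ = ∑ l, (((Pi.single i 1 : Fin r → ℤ) l : ℤ) : 𝕂) * lam l := by
          rw [Finset.sum_eq_single i]
          · simp
          · intro l _ hl'
            rw [Pi.single_eq_of_ne hl']; simp
          · intro h; exact absurd (Finset.mem_univ i) h
  have hprod' : ∀ i, ∏ j, b' j ^ α i j = 1 := by
    intro i
    have h1 : ∀ j, b' j ^ α i j = g j ^ α i j / mx x (a j) ^ α i j := fun j => by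
      rw [hb']; exact div_zpow _ _ _
    rw [Finset.prod_congr rfl fun j _ => h1 j, Finset.prod_div_distrib, ← hx',
      ← mx_sum_smul hx0, hlat, mx_single, zpow_one, div_self (hx0 i)]
  have hprodc : ∀ i, ∏ j, b j ^ α i j = algebraMap k Ω (∏ j, (c j)⁻¹ ^ α i j) := by
    intro i
    have h1 : ∀ j, b j ^ α i j = algebraMap k Ω ((c j)⁻¹ ^ α i j) * b' j ^ α i j := fun j => by
      rw [hb_ap, mul_zpow, map_zpow₀, map_inv₀]
    rw [Finset.prod_congr rfl fun j _ => h1 j, Finset.prod_mul_distrib, hprod', mul_one, map_prod]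
  have hprod : ∀ i, ∏ j, b j ^ α i j = 1 := by
    intro i
    have h1 := vpos_prod (v := v) Finset.univ b hb0 hbres (α i)
    rw [hprodc] at h1
    rw [hprodc, const_eq_one htriv h1, map_one]
  have hao : a o = 0 := by
    refine int_eq_of_ind hl ?_
    rw [← ha o, ho, v.map_one]
    simp
  have hb'o : b' o = 1 := by
    rw [hb']
    change g o / mx x (a o) = 1
    rw [ho, hao, mx_zero, div_one]
  have hbo : b o = 1 := by
    have h1 := hbres o
    have h2 : b o = algebraMap k Ω (c o)⁻¹ := by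
      rw [hb_ap, hb'o, mul_one, map_inv₀]
    rw [h2] at h1 ⊢
    rw [const_eq_one htriv h1, map_one]
  have hainj : Function.Injective a := by
    intro i j hij
    apply hinj
    change v (g i) = v (g j)
    rw [ha i, ha j, hij]
  have hxind : LinearIndependent ℚ fun i => v (x i) := by rw [hvx']; exact hl
  refine ⟨⟨x, hx0, hxind, a, hainj, b, hb0, hbres, o, hao, hbo,
    fun i => ⟨α i, hlat i, hprod i⟩⟩, c, hx', hc0, ?_⟩
  intro j
  change g j = c j • (b j * mx x (a j))
  rw [Algebra.smul_def, hb_ap, hb']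
  have h1 := mx_ne hx0 (a j)
  have h2 := hcΩ j
  field_simp

end Build

section Diff

variable {k K : Type u} [Field k] [Field K] [Algebra k K]

open KaehlerDifferential

/-- The logarithmic differential of a Laurent monomial. -/
noncomputable def dlog (k : Type u) {K : Type u} [Field k] [Field K] [Algebra k K] {ι : Type}
    [Fintype ι] (g : ι → K) : (ι → ℤ) →+ Ω[K⁄k] where
  toFun α := ∑ j, α j • ((g j)⁻¹ • D k K (g j))
  map_zero' := by simp
  map_add' := by
    intro a b
    rw [← Finset.sum_add_distrib]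
    exact Finset.sum_congr rfl fun j _ => by rw [Pi.add_apply, add_smul]

theorem dlog_apply {ι : Type} [Fintype ι] (g : ι → K) (α : ι → ℤ) :
    dlog k g α = ∑ j, α j • ((g j)⁻¹ • D k K (g j)) := rfl

theorem D_prod_zpow {ι : Type} [Fintype ι] {g : ι → K} (hg : ∀ j, g j ≠ 0) (α : ι → ℤ) :
    D k K (∏ j, g j ^ α j) = (∏ j, g j ^ α j) • dlog k g α := by
  classical
  rw [dlog_apply]
  have h1 : ∀ s : Finset ι, D k K (∏ j ∈ s, g j ^ α j) =
      (∏ j ∈ s, g j ^ α j) • ∑ j ∈ s, α j • ((g j)⁻¹ • D k K (g j)) := by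
    intro s
    induction s using Finset.induction_on with
    | empty => simp
    | insert j s hj ih =>
      rw [Finset.prod_insert hj, Finset.sum_insert hj, Derivation.leibniz, ih,
        Derivation.leibniz_zpow, smul_add, mul_smul, add_comm]
      congr 1
      · rw [zpow_sub_one₀ (hg j)]
        simp only [← Int.cast_smul_eq_zsmul K, smul_smul]
        congr 1
        ring
      · rw [mul_smul]
  exact h1 Finset.univ

/-- The dimension of the space of differentials is at least the transcendence degree. -/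
theorem le_finrank_kaehler [Algebra.EssFiniteType k K] (n : ℕ) (hn : Algebra.trdeg k K = n) :
    n ≤ finrank K Ω[K⁄k] := by
  classical
  obtain ⟨b, hbs, hspan, hli⟩ := exists_linearIndependent K (Set.range (D k K))
  rw [KaehlerDifferential.span_range_derivation] at hspan
  have hfin : FiniteDimensional K Ω[K⁄k] := inferInstance
  obtain ⟨B⟩ : Nonempty (Basis b K Ω[K⁄k]) :=
    ⟨Basis.mk hli (by rw [Subtype.range_coe_subtype, Set.ofPred_mem_eq, hspan])⟩
  have hcard : Cardinal.mk b = (finrank K Ω[K⁄k] : ℕ) := by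
    have h1 := Module.mk_finrank_eq_card_basis B
    exact h1.symm
  choose t ht using fun y : b => hbs y.2
  have hD : D k K '' Set.range t = b := by
    ext y
    constructor
    · rintro ⟨_, ⟨z, rfl⟩, rfl⟩
      rw [ht]; exact z.2
    · intro hy
      exact ⟨t ⟨y, hy⟩, ⟨_, rfl⟩, ht ⟨y, hy⟩⟩
  have hsep := ALB.separable_of_span_D (k := k) (Set.range t) (by rw [hD, hspan])
  have halg : Algebra.IsAlgebraic (Algebra.adjoin k (Set.range t)) K := by
    have h1 : Algebra.IsAlgebraic (IntermediateField.adjoin k (Set.range t)) K := inferInstance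
    constructor
    intro x
    rw [← IntermediateField.isAlgebraic_adjoin_iff]
    exact h1.isAlgebraic x
  have h2 := Algebra.IsAlgebraic.trdeg_le_cardinalMk k (Set.range t)
  rw [hn] at h2
  have h3 := h2.trans Cardinal.mk_range_le
  rw [hcard] at h3
  exact_mod_cast h3

end Diff

section Rank

variable {k Ω : Type u} [Field k] [Field Ω] [Algebra k Ω] {𝕂 : Type w} [Field 𝕂] [LinearOrder 𝕂] [IsStrictOrderedRing 𝕂] {v : OVal 𝕂 Ω} {n r : ℕ}

/-- Elements whose values are rationally independent are algebraically independent. -/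
theorem algInd_of_val (htriv : ∀ c : k, c ≠ 0 → v (algebraMap k Ω c) = 0) {X : Fin r → Ω}
    (hX0 : ∀ i, X i ≠ 0) (hX : LinearIndependent ℚ fun i => v (X i)) :
    AlgebraicIndependent k X := by
  classical
  rw [algebraicIndependent_iff]
  intro p hp
  by_contra hp0
  rw [MvPolynomial.aeval_def, MvPolynomial.eval₂_eq'] at hp
  have hc : ∀ d ∈ p.support, algebraMap k Ω (p.coeff d) ≠ 0 := fun d hd =>
    (map_ne_zero _).2 (MvPolynomial.mem_support_iff.1 hd)
  have hm : ∀ d : Fin r →₀ ℕ, ∏ i, X i ^ d i ≠ 0 := fun d =>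
    Finset.prod_ne_zero_iff.2 fun i _ => pow_ne_zero _ (hX0 i)
  have hval : ∀ d ∈ p.support, v (algebraMap k Ω (p.coeff d) * ∏ i, X i ^ d i) =
      ∑ i, (((d i : ℕ) : ℤ) : 𝕂) * v (X i) := by
    intro d hd
    rw [v.map_mul (hc d hd) (hm d), htriv _ (MvPolynomial.mem_support_iff.1 hd), zero_add,
      v.map_prod _ _ fun i _ => pow_ne_zero _ (hX0 i)]
    exact Finset.sum_congr rfl fun i _ => by rw [v.map_pow (hX0 i)]; push_cast; rfl
  refine (sum_dist (v := v) p.support _ (fun d hd => mul_ne_zero (hc d hd) (hm d)) ?_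
    (MvPolynomial.support_nonempty.2 hp0)).1 hp
  intro d hd e he hde
  rw [hval d hd, hval e he] at hde
  have h1 := int_eq_of_ind hX hde
  ext i
  exact_mod_cast congrFun h1 i

theorem CtxR.rank_le (h : CtxR k v n r) : r ≤ n := by
  obtain ⟨X, hX0, hX, -⟩ := h.rank
  have h1 := (algInd_of_val h.triv hX0 hX).lift_cardinalMk_le_trdeg
  rw [h.trdeg] at h1
  simpa using h1

theorem le_finrank (h : CtxR k v n r) (E : IntermediateField k Ω) [Algebra.EssFiniteType k E]
    (halg : ∀ g : Ω, IsAlgebraic E g) : r ≤ finrank E (KaehlerDifferential k E) := by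
  have h1 : Algebra.IsAlgebraic E Ω := ⟨halg⟩
  have h2 : Algebra.trdeg k E + Algebra.trdeg E Ω = Algebra.trdeg k Ω := trdeg_add_eq k E
  have h3 : Algebra.trdeg E Ω = 0 := _root_.trdeg_eq_zero
  rw [h3, add_zero, h.trdeg] at h2
  exact h.rank_le.trans (le_finrank_kaehler n h2)

end Rank

section Main

variable {k Ω : Type u} [Field k] [Field Ω] [Algebra k Ω] {𝕂 : Type w} [Field 𝕂] [LinearOrder 𝕂] [IsStrictOrderedRing 𝕂] {v : OVal 𝕂 Ω} {n r : ℕ}

/-- The weight of a vector of exponents. -/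
noncomputable def wtHom {ι : Type} [Fintype ι] (ν : ι → 𝕂) : (ι → ℤ) →+ 𝕂 where
  toFun α := ∑ j, (α j : 𝕂) * ν j
  map_zero' := by simp
  map_add' := by
    intro a b
    rw [← Finset.sum_add_distrib]
    exact Finset.sum_congr rfl fun j _ => by rw [Pi.add_apply]; push_cast; ring

theorem wtHom_apply {ι : Type} [Fintype ι] (ν : ι → 𝕂) (α : ι → ℤ) :
    wtHom ν α = ∑ j, (α j : 𝕂) * ν j := rfl

/-- If the `g j` generate the field then exponents of the `x i` can be chosen with independent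
differentials. -/
theorem exists_exponents {K : Type u} [Field K] [Algebra k K] [Algebra.EssFiniteType k K]
    {ι : Type} [Fintype ι] (g : ι → K) (hg : ∀ j, g j ≠ 0)
    (hgen : ∀ z : K, z ∈ IntermediateField.adjoin k (Set.range g)) (ν : ι → 𝕂)
    (hr : r ≤ finrank K (KaehlerDifferential k K)) {lam : Fin r → 𝕂} {a : ι → Fin r → ℤ}
    (ha : ∀ j, ν j = ∑ i, (a j i : 𝕂) * lam i) {α : Fin r → ι → ℤ}
    (hα : ∀ i, ∑ j, (α i j : 𝕂) * ν j = lam i) :
    ∃ α' : Fin r → ι → ℤ, (∀ i, ∑ j, (α' i j : 𝕂) * ν j = lam i) ∧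
      LinearIndependent K fun i => KaehlerDifferential.D k K (∏ j, g j ^ α' i j) := by
  classical
  obtain ⟨κ, hκ, hind⟩ := exists_indep (E := K) (M := KaehlerDifferential k K)
    ((wtHom ν).ker.map (dlog k g)) (fun i => dlog k g (α i)) (by
      rw [eq_top_iff, ← KaehlerDifferential.span_range_derivation k K, span_le]
      rintro _ ⟨z, rfl⟩
      refine ALB.D_mem_of_mem_adjoin _ ?_ (hgen z)
      rintro _ ⟨j, rfl⟩
      obtain ⟨S, hS⟩ : ∃ S, S = span K ((((wtHom ν).ker.map (dlog k g) : AddSubgroup _) :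
        Set (KaehlerDifferential k K)) ∪ Set.range fun i => dlog k g (α i)) := ⟨_, rfl⟩
      rw [← hS]
      have h1 : dlog k g (Pi.single j 1 - ∑ i, a j i • α i) ∈ S := by
        rw [hS]
        refine subset_span (Or.inl ⟨_, ?_, rfl⟩)
        change wtHom ν _ = 0
        rw [map_sub, map_sum]
        have h2 : wtHom ν (Pi.single j 1) = ν j := by
          rw [wtHom_apply, Finset.sum_eq_single j]
          · simp
          · intro l _ hl
            rw [Pi.single_eq_of_ne hl]; simp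
          · intro h; exact absurd (Finset.mem_univ j) h
        have h3 : ∀ i, wtHom ν (a j i • α i) = (a j i : 𝕂) * lam i := fun i => by
          rw [map_zsmul, wtHom_apply, hα, zsmul_eq_mul]
        rw [h2, Finset.sum_congr rfl fun i _ => h3 i, ← ha, sub_self]
      have h4 : dlog k g (∑ i, a j i • α i) ∈ S := by
        rw [map_sum]
        refine Submodule.sum_mem _ fun i _ => ?_
        rw [map_zsmul, ← Int.cast_smul_eq_zsmul K]
        refine Submodule.smul_mem _ _ ?_
        rw [hS]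
        exact subset_span (Or.inr ⟨i, rfl⟩)
      have h5 : dlog k g (Pi.single j 1) ∈ S := by
        have h6 := S.add_mem h1 h4
        rwa [← map_add, sub_add_cancel] at h6
      have h7 : dlog k g (Pi.single j 1) = (g j)⁻¹ • KaehlerDifferential.D k K (g j) := by
        rw [dlog_apply, Finset.sum_eq_single j]
        · rw [Pi.single_eq_same, one_smul]
        · intro l _ hl
          rw [Pi.single_eq_of_ne hl, zero_smul]
        · intro h; exact absurd (Finset.mem_univ j) h
      rw [h7] at h5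
      have h8 := S.smul_mem (g j) h5
      rwa [smul_smul, mul_inv_cancel₀ (hg j), one_smul] at h8) hr
  choose β hβ hβκ using hκ
  refine ⟨fun i => α i + β i, fun i => ?_, ?_⟩
  · have h1 : wtHom ν (α i + β i) = lam i := by
      have h2 : wtHom ν (β i) = 0 := hβ i
      rw [map_add, h2, add_zero, wtHom_apply, hα]
    rw [← h1]; rfl
  · have h1 : ∀ i, KaehlerDifferential.D k K (∏ j, g j ^ (α i + β i) j) =
        (∏ j, g j ^ (α i + β i) j) • (dlog k g (α i) + κ i) := by
      intro i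
      rw [D_prod_zpow hg, map_add, hβκ]
    have h2 : ∀ i, ∏ j, g j ^ (α i + β i) j ≠ 0 := fun i =>
      Finset.prod_ne_zero_iff.2 fun j _ => zpow_ne_zero _ (hg j)
    have h3 := hind.units_smul fun i => Units.mk0 _ (h2 i)
    have h4 : ((fun i => Units.mk0 _ (h2 i)) • fun i => dlog k g (α i) + κ i) =
        fun i => KaehlerDifferential.D k K (∏ j, g j ^ (α i + β i) j) := by
      funext i
      rw [h1 i]
      rfl
    rw [h4] at h3
    exact h3

theorem exists_TD (h : CtxR k v n r) [IsAlgClosed k] (E : IntermediateField k Ω)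
    (hfg : ∃ S : Finset Ω, E = IntermediateField.adjoin k (S : Set Ω))
    (halg : ∀ g : Ω, IsAlgebraic E g) (P : Submodule k Ω) [FiniteDimensional k P]
    (h1 : (1 : Ω) ∈ P) (hP : IntermediateField.adjoin k (P : Set Ω) = E)
    (hr : ∃ c d : Fin r → Ω, (∀ i, c i ∈ P ∧ c i ≠ 0 ∧ d i ∈ P ∧ d i ≠ 0) ∧
      LinearIndependent ℚ fun i => v (c i) - v (d i)) :
    ∃ (T : TD k v r (Fin (finrank k P))) (f₀ : Ω), f₀ ∈ P ∧ f₀ ≠ 0 ∧
      span k (Set.range fun j => T.b j * mx T.x (T.a j)) = span k {f₀⁻¹} * P ∧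
      IntermediateField.adjoin k (Set.range T.x ∪ Set.range T.b) = E ∧
      ∃ hx : ∀ i, T.x i ∈ E,
        LinearIndependent E fun i => KaehlerDifferential.D k E ⟨T.x i, hx i⟩ := by
  classical
  have hess : Algebra.EssFiniteType k E := by
    obtain ⟨S, hS⟩ := hfg
    rw [IntermediateField.essFiniteType_iff, hS]
    exact IntermediateField.fg_adjoin_of_finite S.finite_toSet
  obtain ⟨F, hF⟩ := VBasis.exists h.triv P
  have hcard := hF.card_eq h.triv h.res
  have hPF : P = span k (F : Set Ω) :=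
    le_antisymm (hF.le_span h.res) (span_le.2 hF.mem)
  obtain ⟨e⟩ : Nonempty (Fin (finrank k P) ≃ F) := ⟨(F.equivFinOfCardEq hcard).symm⟩
  obtain ⟨f, hf⟩ : ∃ f : Fin (finrank k P) → Ω, f = fun j => (e j : Ω) := ⟨_, rfl⟩
  have hf' : ∀ j, f j = (e j : Ω) := fun j => by rw [hf]
  have hfr : Set.range f = F := by
    ext y
    constructor
    · rintro ⟨j, rfl⟩
      rw [hf']; exact (e j).2
    · intro hy
      exact ⟨e.symm ⟨y, hy⟩, by rw [hf', Equiv.apply_symm_apply]⟩
  have hfF : ∀ j, f j ∈ F := fun j => by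
    have h2 : f j ∈ Set.range f := ⟨j, rfl⟩
    rw [hfr] at h2
    exact h2
  have hfP : ∀ j, f j ∈ P := fun j => hF.mem _ (hfF j)
  have hf0 : ∀ j, f j ≠ 0 := fun j => hF.ne _ (hfF j)
  have hvinj : Function.Injective fun j => v (f j) := by
    intro i j hij
    have h2 : f i = f j := hF.inj (hfF i) (hfF j) hij
    rw [hf', hf'] at h2
    exact e.injective (Subtype.ext h2)
  have hall : ∀ g ∈ P, g ≠ 0 → ∃ j, v g = v (f j) := by
    intro g hg hg0
    obtain ⟨y, hy, hvy⟩ := hF.all g hg hg0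
    have h2 : y ∈ Set.range f := by rw [hfr]; exact hy
    obtain ⟨j, rfl⟩ := h2
    exact ⟨j, hvy⟩
  obtain ⟨o, -⟩ := hall 1 h1 one_ne_zero
  obtain ⟨g, hg⟩ : ∃ g : Fin (finrank k P) → Ω, g = fun j => (f o)⁻¹ * f j := ⟨_, rfl⟩
  have hg' : ∀ j, g j = (f o)⁻¹ * f j := fun j => by rw [hg]
  have hg0 : ∀ j, g j ≠ 0 := fun j => by
    rw [hg']; exact mul_ne_zero (inv_ne_zero (hf0 o)) (hf0 j)
  have hvg : ∀ j, v (g j) = v (f j) - v (f o) := fun j => by
    rw [hg', v.map_mul (inv_ne_zero (hf0 o)) (hf0 j), v.map_inv (hf0 o)]; ring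
  have hgo : g o = 1 := by rw [hg', inv_mul_cancel₀ (hf0 o)]
  have hginj : Function.Injective fun j => v (g j) := by
    intro i j hij
    apply hvinj
    have h2 : v (g i) = v (g j) := hij
    rw [hvg, hvg] at h2
    change v (f i) = v (f j)
    linarith
  -- the rational rank
  have hrank : finrank ℚ (span ℚ (Set.range fun j => v (g j))) = r := by
    apply le_antisymm
    · obtain ⟨X, hX0, hX, hXs⟩ := h.rank
      have h2 : span ℚ (Set.range fun j => v (g j)) ≤ span ℚ (Set.range fun i => v (X i)) := by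
        rw [span_le]
        rintro _ ⟨j, rfl⟩
        exact hXs _ (hg0 j)
      have hfd : FiniteDimensional ℚ (span ℚ (Set.range fun i => v (X i))) :=
        FiniteDimensional.span_of_finite ℚ (Set.finite_range _)
      have h3 := Submodule.finrank_mono h2
      rwa [finrank_span_eq_card hX, Fintype.card_fin] at h3
    · obtain ⟨c, d, hcd, hind⟩ := hr
      have h2 : span ℚ (Set.range fun i => v (c i) - v (d i)) ≤
          span ℚ (Set.range fun j => v (g j)) := by
        rw [span_le]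
        rintro _ ⟨i, rfl⟩
        obtain ⟨hc, hc0, hd, hd0⟩ := hcd i
        obtain ⟨j, hj⟩ := hall _ hc hc0
        obtain ⟨j', hj'⟩ := hall _ hd hd0
        have h3 : v (c i) - v (d i) = v (g j) - v (g j') := by
          rw [hvg, hvg, hj, hj']; ring
        change v (c i) - v (d i) ∈ span ℚ (Set.range fun j => v (g j))
        rw [h3]
        exact Submodule.sub_mem _ (subset_span ⟨j, rfl⟩) (subset_span ⟨j', rfl⟩)
      have hfd : FiniteDimensional ℚ (span ℚ (Set.range fun j => v (g j))) :=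
        FiniteDimensional.span_of_finite ℚ (Set.finite_range _)
      have h3 := Submodule.finrank_mono h2
      rwa [finrank_span_eq_card hind, Fintype.card_fin] at h3
  obtain ⟨lam, a, α, hl, ha, hα⟩ := exists_lattice (fun j => v (g j)) hrank
  -- the field
  have hPE : ∀ y ∈ P, y ∈ E := fun y hy => by
    rw [← hP]; exact IntermediateField.subset_adjoin _ _ hy
  have hgE : ∀ j, g j ∈ E := fun j => by
    rw [hg']; exact E.mul_mem (E.inv_mem (hPE _ (hfP o))) (hPE _ (hfP j))
  have hspanf : span k (Set.range f) = P := by rw [hfr]; exact hPF.symm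
  have hspang : span k (Set.range g) = span k {(f o)⁻¹} * P := by
    have h2 : span k {(f o)⁻¹} * P = span k {(f o)⁻¹} * span k (Set.range f) := by rw [hspanf]
    rw [h2, span_mul_span, Set.singleton_mul, ← Set.range_comp]
    congr 1
    ext y
    simp only [Set.mem_range, Function.comp, hg']
  have hPg : ∀ y ∈ P, (f o)⁻¹ * y ∈ span k (Set.range g) := fun y hy => by
    rw [hspang]
    exact mul_mem_mul (mem_span_singleton_self _) hy
  have hspan_le : ∀ L : IntermediateField k Ω, (∀ j, g j ∈ L) → E ≤ L := by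
    intro L hL
    have h2 : ∀ y ∈ span k (Set.range g), y ∈ L := by
      intro y hy
      have h3 : span k (Set.range g) ≤ L.toSubalgebra.toSubmodule := by
        rw [span_le]
        rintro _ ⟨j, rfl⟩
        exact hL j
      exact h3 hy
    have h3 : (f o)⁻¹ ∈ L := by
      have h4 := h2 _ (hPg 1 h1)
      rwa [mul_one] at h4
    rw [← hP, IntermediateField.adjoin_le_iff]
    intro y hy
    have h4 := L.mul_mem (L.inv_mem h3) (h2 _ (hPg y hy))
    rwa [inv_inv, mul_inv_cancel_left₀ (hf0 o)] at h4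
  obtain ⟨gE, hgE'⟩ : ∃ gE : Fin (finrank k P) → E, ∀ j, (gE j : Ω) = g j :=
    ⟨fun j => ⟨g j, hgE j⟩, fun j => rfl⟩
  have hgE0 : ∀ j, gE j ≠ 0 := fun j h2 => hg0 j (by rw [← hgE', h2]; rfl)
  have hgen : ∀ z : E, z ∈ IntermediateField.adjoin k (Set.range gE) := by
    intro z
    have h2 : E ≤ (IntermediateField.adjoin k (Set.range gE)).map E.val := by
      apply hspan_le
      intro j
      exact ⟨gE j, IntermediateField.subset_adjoin _ _ ⟨j, rfl⟩, hgE' j⟩
    obtain ⟨w, hw, hwz⟩ := h2 z.2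
    have h3 : w = z := Subtype.ext hwz
    rw [← h3]
    exact hw
  obtain ⟨α', hα', hind⟩ := exists_exponents (k := k) (r := r) gE hgE0 hgen (fun j => v (g j))
    (le_finrank h E halg) ha hα
  obtain ⟨T, c, hTx, hc0, hTg⟩ := exists_TD_of_lattice h.triv h.res hg0 hginj o hgo hl ha hα'
  have hxE : ∀ i, T.x i ∈ E := fun i => by
    rw [hTx]
    exact prod_mem fun j _ => zpow_mem (hgE j) _
  have hcΩ : ∀ j, algebraMap k Ω (c j) ≠ 0 := fun j => (map_ne_zero _).2 (hc0 j)
  have hTg' : ∀ j, T.b j * mx T.x (T.a j) = (c j)⁻¹ • g j := fun j => by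
    rw [hTg, smul_smul, inv_mul_cancel₀ (hc0 j), one_smul]
  have hmxE : ∀ j, mx T.x (T.a j) ∈ E := fun j =>
    prod_mem fun i _ => zpow_mem (hxE i) _
  have hbE : ∀ j, T.b j ∈ E := fun j => by
    have h2 : T.b j = ((c j)⁻¹ • g j) * (mx T.x (T.a j))⁻¹ := by
      rw [← hTg', mul_inv_cancel_right₀ (mx_ne T.x_ne _)]
    rw [h2]
    exact E.mul_mem (E.smul_mem (hgE j)) (E.inv_mem (hmxE j))
  refine ⟨T, f o, hfP o, hf0 o, ?_, ?_, hxE, ?_⟩
  · rw [← hspang]
    apply le_antisymm
    · rw [span_le]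
      rintro _ ⟨j, rfl⟩
      change T.b j * mx T.x (T.a j) ∈ span k (Set.range g)
      rw [hTg']
      exact Submodule.smul_mem _ _ (subset_span ⟨j, rfl⟩)
    · rw [span_le]
      rintro _ ⟨j, rfl⟩
      change g j ∈ span k (Set.range fun j => T.b j * mx T.x (T.a j))
      rw [hTg]
      exact Submodule.smul_mem _ _ (subset_span ⟨j, rfl⟩)
  · apply le_antisymm
    · rw [IntermediateField.adjoin_le_iff]
      rintro _ (⟨i, rfl⟩ | ⟨j, rfl⟩)
      · exact hxE i
      · exact hbE j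
    · apply hspan_le
      intro j
      obtain ⟨L, hL⟩ : ∃ L, L = IntermediateField.adjoin k (Set.range T.x ∪ Set.range T.b) :=
        ⟨_, rfl⟩
      have hxL : ∀ i, T.x i ∈ L := fun i => by
        rw [hL]; exact IntermediateField.subset_adjoin _ _ (Or.inl ⟨i, rfl⟩)
      have hbL : T.b j ∈ L := by
        rw [hL]; exact IntermediateField.subset_adjoin _ _ (Or.inr ⟨j, rfl⟩)
      rw [hTg, ← hL]
      exact L.smul_mem (L.mul_mem hbL (prod_mem fun i _ => zpow_mem (hxL i) _))
  · have h4 : (fun i => KaehlerDifferential.D k E (∏ j, gE j ^ α' i j)) =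
        fun i => KaehlerDifferential.D k E ⟨T.x i, hxE i⟩ := by
      funext i
      congr 1
      apply Subtype.ext
      change E.val (∏ j, gE j ^ α' i j) = T.x i
      rw [hTx, map_prod]
      refine Finset.prod_congr rfl fun j _ => ?_
      rw [map_zpow₀, IntermediateField.coe_val, hgE']
    rw [h4] at hind
    exact hind

end Main

end Pool.Agent.TAO
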