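import Pool.Agent.Lib.TAO.ChoiceY

/-!
# Toric Albanese, TA9: monotonicity of `beta`
-/

set_option autoImplicit false

namespace Pool.Agent.TAO

open Pool.Agent.H15JM (RVal)

universe u w

variable {k Ω : Type u} [Field k] [Field Ω] [Algebra k Ω] {𝕂 : Type w} [Field 𝕂] [LinearOrder 𝕂] [IsStrictOrderedRing 𝕂] {v : OVal 𝕂 Ω} {n r : ℕ}
  {ι : Type} [Fintype ι]

theorem beta_mono (_h : Ctx0 k v n) (T : TD k v r ι) : Monotone (beta k v T.x T.b) := by
  intro s t hst
  have hfin : Module.Finite k (Ab k T.b ⧸ (aId v T.x T.b ⊔ nId k T.b ^ t)) := finite_beta T t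
  have hle : aId v T.x T.b ⊔ nId k T.b ^ t ≤ aId v T.x T.b ⊔ nId k T.b ^ s :=
    sup_le_sup_left (Ideal.pow_le_pow_right hst) _
  exact LinearMap.finrank_le_finrank_of_surjective
    (f := (Ideal.Quotient.factorₐ k hle).toLinearMap)
    (Ideal.Quotient.factor_surjective hle)

omit [Fintype ι] in
theorem beta_zero' {𝕂 : Type w} [Field 𝕂] [LinearOrder 𝕂] [IsStrictOrderedRing 𝕂] (v : OVal 𝕂 Ω) (x : Fin r → Ω) (b : ι → Ω) : beta k v x b 0 = 0 := by
  unfold beta
  have h : aId v x b ⊔ nId k b ^ 0 = ⊤ := by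
    rw [pow_zero, Ideal.one_eq_top, sup_top_eq]
  rw [h]
  have : Subsingleton (Ab k b ⧸ (⊤ : Ideal (Ab k b))) :=
    Ideal.Quotient.subsingleton_iff.mpr rfl
  exact Module.finrank_zero_of_subsingleton

theorem beta_zero (T : TD k v r ι) : beta k v T.x T.b 0 = 0 := beta_zero' v T.x T.b

end Pool.Agent.TAO
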