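import Pool.Agent.Lib.ALB.Growth
import Pool.Agent.Lib.TAO.ChoiceY

/-!
# TA6d: the weighted filtration `J_s = ∑_j (x)^j W^(s - M₀ j) A`
-/

set_option autoImplicit false

namespace Pool.Agent.TAO

open Submodule Module
open Pool.Agent.ALB

section Lift

variable {k V : Type*} [Field k] [AddCommGroup V] [Module k V]

/-- A finite-dimensional complement of `J` in `M + J`. -/
theorem exists_complement (M J : Submodule k V) [FiniteDimensional k (M.map J.mkQ)] :
    ∃ C : Submodule k V, C ≤ M ∧ FiniteDimensional k C ∧ finrank k C ≤ qd M J ∧ M ≤ C ⊔ J := by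
  let b := Module.finBasis k (M.map J.mkQ)
  have hm : ∀ i, ∃ m ∈ M, J.mkQ m = (b i : V ⧸ J) := fun i => (b i).2
  choose m hmM hmb using hm
  have hfin : FiniteDimensional k (span k (Set.range m)) :=
    FiniteDimensional.span_of_finite k (Set.finite_range m)
  refine ⟨span k (Set.range m), ?_, hfin, ?_, ?_⟩
  · rw [span_le]
    rintro _ ⟨i, rfl⟩
    exact hmM i
  · refine (finrank_range_le_card m).trans ?_
    rw [Fintype.card_fin]
    rfl
  · intro z hz
    have h1 := b.sum_repr ⟨J.mkQ z, Submodule.mem_map_of_mem hz⟩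
    have h2 : J.mkQ (∑ i, b.repr ⟨J.mkQ z, Submodule.mem_map_of_mem hz⟩ i • m i) = J.mkQ z := by
      rw [map_sum]
      have h3 := congrArg (Submodule.subtype (M.map J.mkQ)) h1
      rw [map_sum] at h3
      calc ∑ i, J.mkQ (b.repr ⟨J.mkQ z, Submodule.mem_map_of_mem hz⟩ i • m i)
          = ∑ i, (Submodule.subtype (M.map J.mkQ))
              (b.repr ⟨J.mkQ z, Submodule.mem_map_of_mem hz⟩ i • b i) := by
            refine Finset.sum_congr rfl fun i _ => ?_
            rw [map_smul, hmb i, map_smul]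
            rfl
        _ = J.mkQ z := h3
    have h4 : z - ∑ i, b.repr ⟨J.mkQ z, Submodule.mem_map_of_mem hz⟩ i • m i ∈ J := by
      rw [← Submodule.Quotient.mk_eq_zero, Submodule.Quotient.mk_sub, sub_eq_zero]
      exact h2.symm
    have h5 : z = (∑ i, b.repr ⟨J.mkQ z, Submodule.mem_map_of_mem hz⟩ i • m i) +
        (z - ∑ i, b.repr ⟨J.mkQ z, Submodule.mem_map_of_mem hz⟩ i • m i) := by abel
    rw [h5]
    refine Submodule.add_mem_sup ?_ h4
    exact Submodule.sum_mem _ fun i _ => Submodule.smul_mem _ _ (subset_span ⟨i, rfl⟩)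

end Lift

section Mono

variable {k Ω : Type*} [Field k] [Field Ω] [Algebra k Ω]

theorem pow_span_le {r : ℕ} (x : Fin r → Ω) (j : ℕ) :
    (span k (Set.range x)) ^ j ≤ span k (((fun a : Fin r → ℕ => ∏ i, x i ^ a i) ''
      (Finset.piAntidiag (Finset.univ : Finset (Fin r)) j : Set (Fin r → ℕ)))) := by
  classical
  induction j with
  | zero =>
    rw [pow_zero, Submodule.one_eq_span, span_le, Set.singleton_subset_iff]
    refine subset_span ⟨0, ?_, ?_⟩
    · rw [Finset.mem_coe, Finset.mem_piAntidiag]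
      exact ⟨by simp, by simp⟩
    · simp
  | succ j ih =>
    rw [pow_succ]
    refine (mul_le_mul' ih le_rfl).trans ?_
    rw [Submodule.span_mul_span, span_le]
    rintro _ ⟨_, ⟨a, ha, rfl⟩, _, ⟨i, rfl⟩, rfl⟩
    refine subset_span ⟨a + Pi.single i 1, ?_, ?_⟩
    · rw [Finset.mem_coe, Finset.mem_piAntidiag] at ha ⊢
      refine ⟨?_, by simp⟩
      simp only [Pi.add_apply, Finset.sum_add_distrib, ha.1]
      rw [Finset.sum_pi_single']
      simp
    · simp only [Pi.add_apply, pow_add, Finset.prod_mul_distrib]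
      congr 1
      rw [Finset.prod_eq_single i]
      · rw [Pi.single_eq_same, pow_one]
      · intro j _ hj
        rw [Pi.single_eq_of_ne hj, pow_zero]
      · intro h
        exact absurd (Finset.mem_univ i) h

theorem finite_pow_span {r : ℕ} (x : Fin r → Ω) (j : ℕ) :
    FiniteDimensional k ((span k (Set.range x)) ^ j : Submodule k Ω) := by
  have hf : FiniteDimensional k (span k (((fun a : Fin r → ℕ => ∏ i, x i ^ a i) ''
      (Finset.piAntidiag (Finset.univ : Finset (Fin r)) j : Set (Fin r → ℕ))))) :=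
    FiniteDimensional.span_of_finite k ((Finset.finite_toSet _).image _)
  exact Submodule.finiteDimensional_of_le (pow_span_le x j)

theorem finrank_pow_span_le {r : ℕ} (x : Fin r → Ω) (j : ℕ) :
    finrank k ((span k (Set.range x)) ^ j : Submodule k Ω) ≤ cnt r j := by
  classical
  have hf : FiniteDimensional k (span k (((fun a : Fin r → ℕ => ∏ i, x i ^ a i) ''
      (Finset.piAntidiag (Finset.univ : Finset (Fin r)) j : Set (Fin r → ℕ))))) :=
    FiniteDimensional.span_of_finite k ((Finset.finite_toSet _).image _)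
  refine (Submodule.finrank_mono (pow_span_le x j)).trans ?_
  have h1 : ((fun a : Fin r → ℕ => ∏ i, x i ^ a i) ''
      (Finset.piAntidiag (Finset.univ : Finset (Fin r)) j : Set (Fin r → ℕ))) =
      (((Finset.piAntidiag (Finset.univ : Finset (Fin r)) j).image
        (fun a : Fin r → ℕ => ∏ i, x i ^ a i) : Finset Ω) : Set Ω) := by
    rw [Finset.coe_image]
  rw [h1]
  exact (finrank_span_finset_le_card _).trans Finset.card_image_le

theorem finite_mul (P Q : Submodule k Ω) [FiniteDimensional k P] [FiniteDimensional k Q] :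
    FiniteDimensional k (P * Q : Submodule k Ω) := by
  have hP : P.FG := Module.Finite.iff_fg.mp inferInstance
  have hQ : Q.FG := Module.Finite.iff_fg.mp inferInstance
  exact Module.Finite.iff_fg.mpr (hP.mul hQ)

end Mono

section Main

open Pool.Agent.H15JM (RVal)

universe u w

variable {k Ω : Type u} [Field k] [Field Ω] [Algebra k Ω] {𝕂 : Type w} [Field 𝕂] [LinearOrder 𝕂] [IsStrictOrderedRing 𝕂] {v : OVal 𝕂 Ω} {n r D : ℕ}
  {ι : Type}

/-- `J_s = ∑_{j ≤ s} (x)^j W^(s - M₀ j) A`. -/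
def Js (k : Type u) {Ω : Type u} [Field k] [Field Ω] [Algebra k Ω] {ι : Type} {r : ℕ}
    (x : Fin r → Ω) (b : ι → Ω) (M₀ s : ℕ) : Submodule k Ω :=
  ⨆ j ∈ Finset.range (s + 1),
    span k (Set.range x) ^ j * Wb k b ^ (s - M₀ * j) * (Ax k x b).toSubmodule

theorem le_Js (x : Fin r → Ω) (b : ι → Ω) (M₀ : ℕ) {s j : ℕ} (hj : j ≤ s) :
    span k (Set.range x) ^ j * Wb k b ^ (s - M₀ * j) * (Ax k x b).toSubmodule ≤
      Js k x b M₀ s :=
  le_iSup₂_of_le j (Finset.mem_range.2 (by omega)) le_rfl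

theorem Js_le_Ax (x : Fin r → Ω) (b : ι → Ω) (M₀ s : ℕ) :
    Js k x b M₀ s ≤ (Ax k x b).toSubmodule := by
  refine iSup₂_le fun j _ => ?_
  have hX : span k (Set.range x) ≤ Subalgebra.toSubmodule (Ax k x b) := by
    rw [span_le]
    rintro _ ⟨i, rfl⟩
    exact x_mem_Ax₅ x b i
  have h1 : ∀ (P : Submodule k Ω), P ≤ Subalgebra.toSubmodule (Ax k x b) → ∀ t : ℕ,
      P ^ t ≤ Subalgebra.toSubmodule (Ax k x b) := by
    intro P hP t
    induction t with
    | zero => rw [pow_zero, Submodule.one_le]; exact one_mem (Ax k x b)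
    | succ t ih =>
      rw [pow_succ]
      exact (mul_le_mul' ih hP).trans (Ax_mul_self₅ x b)
  refine (mul_le_mul' ((mul_le_mul' (h1 _ hX j) (h1 _ (Wb_le_Ax₅ x b) _)).trans
    (Ax_mul_self₅ x b)) le_rfl).trans (Ax_mul_self₅ x b)

variable [Fintype ι]

/-- The filtration of `A / J_s` by the powers of `(x)`. -/
theorem exists_fin_complement (T : TD k v r ι)
    (hX : ∀ g ∈ Ab k T.b, g ∈ Is (k := k) v T.x T.b → g ∈ XA k T.x T.b) (M₀ s : ℕ) (i : ℕ)
    (hi : i ≤ s + 1) :
    ∃ C : Submodule k Ω, FiniteDimensional k C ∧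
      finrank k C ≤ ∑ j ∈ Finset.range i, cnt r j * beta k v T.x T.b (s - M₀ * j) ∧
      (Ax k T.x T.b).toSubmodule ≤ C ⊔
        (span k (Set.range T.x) ^ i * (Ax k T.x T.b).toSubmodule ⊔ Js k T.x T.b M₀ s) := by
  set A₀ : Submodule k Ω := Subalgebra.toSubmodule (Ax k T.x T.b) with hA₀
  set X : Submodule k Ω := span k (Set.range T.x) with hXdef
  set W : Submodule k Ω := Wb k T.b with hW
  have hfW : FiniteDimensional k W :=
    FiniteDimensional.span_of_finite k (Set.finite_range _)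
  induction i with
  | zero =>
    refine ⟨⊥, inferInstance, by simp, ?_⟩
    rw [pow_zero, one_mul]
    exact le_sup_of_le_right le_sup_left
  | succ i ih =>
    obtain ⟨C, hC1, hC2, hC3⟩ := ih (by omega)
    have hfm : FiniteDimensional k (A₀.map (Jf A₀ X W (s - M₀ * i)).mkQ) :=
      finite_map_Jf (Ax_le' T.x T.b T.b_ne) (Wb_le_Ax₅ _ _) (Ax_mul_self₅ _ _) _
    obtain ⟨C', hC1', hC2', hC3', hC4'⟩ := exists_complement A₀ (Jf A₀ X W (s - M₀ * i))
    have hq : finrank k C' ≤ beta k v T.x T.b (s - M₀ * i) :=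
      hC3'.trans (qd_le_beta T hX (s - M₀ * i))
    have hfX : FiniteDimensional k (X ^ i : Submodule k Ω) := finite_pow_span T.x i
    have hfXC : FiniteDimensional k (X ^ i * C' : Submodule k Ω) := finite_mul _ _
    refine ⟨C ⊔ X ^ i * C', inferInstance, ?_, ?_⟩
    · rw [Finset.sum_range_succ]
      refine (Submodule.finrank_add_le_finrank_add_finrank _ _).trans (add_le_add hC2 ?_)
      refine (finrank_mul_le _ _).trans (Nat.mul_le_mul (finrank_pow_span_le T.x i) hq)
    · refine hC3.trans (sup_le (le_sup_of_le_left le_sup_left) (sup_le ?_ ?_))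
      · calc X ^ i * A₀ ≤ X ^ i * (C' ⊔ Jf A₀ X W (s - M₀ * i)) := mul_le_mul' le_rfl hC4'
          _ = X ^ i * C' ⊔ (X ^ i * (X * A₀) ⊔ X ^ i * (W ^ (s - M₀ * i) * A₀)) := by
              rw [Submodule.mul_sup, Jf, Submodule.mul_sup]
          _ ≤ C ⊔ X ^ i * C' ⊔ (X ^ (i + 1) * A₀ ⊔ Js k T.x T.b M₀ s) := by
              refine sup_le (le_sup_of_le_left le_sup_right) (le_sup_of_le_right
                (sup_le_sup ?_ ?_))
              · rw [← mul_assoc, ← pow_succ]
              · rw [← mul_assoc]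
                exact le_Js T.x T.b M₀ (by omega)
      · exact le_sup_of_le_right le_sup_right

/-- **TA6d.** `dim A / J_s ≤ ∑_j #{|a| = j} β(s - M₀ j)`. -/
theorem filt (T : TD k v r ι)
    (hX : ∀ g ∈ Ab k T.b, g ∈ Is (k := k) v T.x T.b → g ∈ XA k T.x T.b) (M₀ : ℕ) (hM : 0 < M₀)
    (s : ℕ) :
    FiniteDimensional k (((Ax k T.x T.b).toSubmodule.map (Js k T.x T.b M₀ s).mkQ) :
      Submodule k (Ω ⧸ Js k T.x T.b M₀ s)) ∧
    finrank k (((Ax k T.x T.b).toSubmodule.map (Js k T.x T.b M₀ s).mkQ) :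
      Submodule k (Ω ⧸ Js k T.x T.b M₀ s)) ≤
      ∑ j ∈ Finset.range s, cnt r j * beta k v T.x T.b (s - M₀ * j) := by
  obtain ⟨C, hC1, hC2, hC3⟩ := exists_fin_complement T hX M₀ s s (by omega)
  have h0 : s - M₀ * s = 0 := Nat.sub_eq_zero_of_le (Nat.le_mul_of_pos_left s hM)
  have h1 : span k (Set.range T.x) ^ s * (Ax k T.x T.b).toSubmodule ≤ Js k T.x T.b M₀ s := by
    have h2 := le_Js (k := k) T.x T.b M₀ (le_refl s)
    rwa [h0, pow_zero, mul_one] at h2
  rw [sup_eq_right.mpr h1] at hC3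
  have h3 : (Ax k T.x T.b).toSubmodule.map (Js k T.x T.b M₀ s).mkQ ≤
      C.map (Js k T.x T.b M₀ s).mkQ := by
    rw [← qd_sup_right C]
    exact Submodule.map_mono hC3
  refine ⟨Submodule.finiteDimensional_of_le h3, ?_⟩
  exact (Submodule.finrank_mono h3).trans ((Submodule.finrank_map_le _ _).trans hC2)

end Main

end Pool.Agent.TAO
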