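import Mathlib

namespace Pool.Agent.TAO.Num

theorem pow_le_fact_mul_choose (n s : ℕ) : (s + 1) ^ n ≤ n.factorial * (s + n).choose n := by
  rw [← Nat.ascFactorial_eq_factorial_mul_choose]
  exact Nat.pow_succ_le_ascFactorial (s + 1) n

/-- One growth step. -/
theorem step (n : ℕ) (a : ℕ → ℕ) (m₀ : ℕ)
    (H : ∀ m : ℕ, m₀ ≤ m → ∃ c : ℕ, ∀ s : ℕ, c < s →
      a m * ((2 ^ n * n.factorial + 1) * (s - c - 1 + n).choose n) ≤ a (m * (2 * s - 1))) :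
    ∃ ε : ℝ, 0 < ε ∧ ∀ m : ℕ, m₀ ≤ m → 1 ≤ m → ∃ m' : ℕ, m < m' ∧
      (1 + ε) * ((a m : ℝ) / (m : ℝ) ^ n) ≤ (a m' : ℝ) / (m' : ℝ) ^ n := by
  have hf : (0 : ℝ) < n.factorial := by exact_mod_cast n.factorial_pos
  set δ : ℝ := 1 / (2 ^ n * n.factorial) with hδ
  have hδ0 : 0 < δ := by positivity
  have hlim2 : ∀ c : ℕ, Filter.Tendsto (fun t : ℕ => (((t : ℝ) - c) / t) ^ n) Filter.atTop (nhds 1) := by
    intro c
    have h : Filter.Tendsto (fun t : ℕ => ((t : ℝ) - c) / t) Filter.atTop (nhds 1) := by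
      have h1 : Filter.Tendsto (fun t : ℕ => 1 - (c : ℝ) / t) Filter.atTop (nhds (1 - 0)) :=
        tendsto_const_nhds.sub (tendsto_const_div_atTop_nhds_zero_nat (c : ℝ))
      rw [sub_zero] at h1
      refine h1.congr' ?_
      filter_upwards [Filter.eventually_gt_atTop 0] with t ht
      have : (t : ℝ) ≠ 0 := by exact_mod_cast ht.ne'
      field_simp
    simpa using h.pow n
  obtain ⟨θ, hθ1, hθ0, hθ⟩ : ∃ θ : ℝ, θ < 1 ∧ 0 < θ ∧ 1 + δ / 4 ≤ (1 + δ) * θ := by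
    refine ⟨1 - δ / (4 * (1 + δ)), ?_, ?_, ?_⟩
    · have : 0 < δ / (4 * (1 + δ)) := by positivity
      linarith
    · have : δ / (4 * (1 + δ)) < 1 := by
        rw [div_lt_one (by positivity)]; linarith
      linarith
    · have h1 : 0 < 1 + δ := by linarith
      have hx : (1 + δ) * (δ / (4 * (1 + δ))) = δ / 4 := by field_simp
      nlinarith
  refine ⟨δ / 4, by positivity, fun m hm hm1 => ?_⟩
  obtain ⟨c, hc⟩ := H m hm
  obtain ⟨t₀, ht₀⟩ := ((hlim2 c).eventually (lt_mem_nhds hθ1)).exists_forall_of_atTop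
  set t : ℕ := max t₀ (c + 2) with htdef
  have htc : c < t := by omega
  have ht1 : θ < (((t : ℝ) - c) / t) ^ n := ht₀ t (le_max_left _ _)
  have htpos : (0 : ℝ) < t := by
    have : 0 < t := by omega
    exact_mod_cast this
  have hmpos : (0 : ℝ) < m := by exact_mod_cast hm1
  refine ⟨m * (2 * t - 1), ?_, ?_⟩
  · have : 3 ≤ 2 * t - 1 := by omega
    nlinarith
  have key := hc t htc
  have hbin := pow_le_fact_mul_choose n (t - c - 1)
  have hts : t - c - 1 + 1 = t - c := by omega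
  rw [hts] at hbin
  have hcast : ((t - c : ℕ) : ℝ) = (t : ℝ) - c := by
    rw [Nat.cast_sub htc.le]
  have h1 : ((t : ℝ) - c) ^ n ≤ n.factorial * ((t - c - 1 + n).choose n : ℝ) := by
    rw [← hcast]; exact_mod_cast hbin
  have h2 : (a m : ℝ) * ((2 ^ n * n.factorial + 1) * ((t - c - 1 + n).choose n : ℝ)) ≤
      a (m * (2 * t - 1)) := by
    exact_mod_cast key
  have h3 : (a m : ℝ) * ((1 + δ) * (2 ^ n * ((t : ℝ) - c) ^ n)) ≤ a (m * (2 * t - 1)) := by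
    refine le_trans ?_ h2
    refine mul_le_mul_of_nonneg_left ?_ (Nat.cast_nonneg _)
    have : (1 + δ) * (2 ^ n * ((t : ℝ) - c) ^ n) ≤
        (1 + δ) * (2 ^ n * (n.factorial * ((t - c - 1 + n).choose n : ℝ))) := by
      gcongr
    refine this.trans (le_of_eq ?_)
    rw [hδ]; field_simp
  have hle : (((m * (2 * t - 1) : ℕ) : ℝ)) ≤ (m : ℝ) * (2 * t) := by
    have : m * (2 * t - 1) ≤ m * (2 * t) := Nat.mul_le_mul_left _ (by omega)
    exact_mod_cast this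
  have hpos' : (0 : ℝ) < ((m * (2 * t - 1) : ℕ) : ℝ) := by
    have : 0 < m * (2 * t - 1) := Nat.mul_pos hm1 (by omega)
    exact_mod_cast this
  rw [le_div_iff₀ (by positivity)]
  refine le_trans ?_ h3
  have e2 : (((t : ℝ) - c) / t) ^ n = ((t : ℝ) - c) ^ n / (t : ℝ) ^ n := div_pow _ _ _
  have htn : (0 : ℝ) < (t : ℝ) ^ n := by positivity
  have hY : θ * (t : ℝ) ^ n ≤ ((t : ℝ) - c) ^ n := by
    rw [e2, lt_div_iff₀ htn] at ht1; exact ht1.le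
  have ha : (0 : ℝ) ≤ (a m : ℝ) / (m : ℝ) ^ n := by positivity
  have hA : (a m : ℝ) = (a m : ℝ) / (m : ℝ) ^ n * (m : ℝ) ^ n := by field_simp
  calc (1 + δ / 4) * ((a m : ℝ) / (m : ℝ) ^ n) * ((m * (2 * t - 1) : ℕ) : ℝ) ^ n
      ≤ ((1 + δ) * θ) * ((a m : ℝ) / (m : ℝ) ^ n) * ((m : ℝ) * (2 * t)) ^ n := by
        gcongr
    _ = ((a m : ℝ) / (m : ℝ) ^ n) * (m : ℝ) ^ n * ((1 + δ) * (2 ^ n * (θ * (t : ℝ) ^ n))) := by
        rw [mul_pow, mul_pow]; ring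
    _ ≤ ((a m : ℝ) / (m : ℝ) ^ n) * (m : ℝ) ^ n * ((1 + δ) * (2 ^ n * ((t : ℝ) - c) ^ n)) := by
        gcongr
    _ = (a m : ℝ) * ((1 + δ) * (2 ^ n * ((t : ℝ) - c) ^ n)) := by
        rw [← hA]

/-- Step 7: polynomial growth of degree n is incompatible with
a(m(2s-1)) >= (2^n n!+1) binom(s-c-1+n, n) a(m) for all large m and s. -/
theorem contradiction (n C : ℕ) (a : ℕ → ℕ) (m₀ : ℕ) (h1 : ∀ s, 1 ≤ a s)
    (hC : ∀ s, a s ≤ C * (s + 1) ^ n)
    (H : ∀ m : ℕ, m₀ ≤ m → ∃ c : ℕ, ∀ s : ℕ, c < s →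
      a m * ((2 ^ n * n.factorial + 1) * (s - c - 1 + n).choose n) ≤ a (m * (2 * s - 1))) : False := by
  obtain ⟨ε, hε, hstep⟩ := step n a m₀ H
  set s₀ := m₀ + 1 with hs₀
  have hit : ∀ k : ℕ, ∃ s : ℕ, s₀ ≤ s ∧
      (1 + ε) ^ k * ((a s₀ : ℝ) / (s₀ : ℝ) ^ n) ≤ (a s : ℝ) / (s : ℝ) ^ n := by
    intro k
    induction k with
    | zero => exact ⟨s₀, le_rfl, by simp⟩
    | succ k ih =>
      obtain ⟨s, hs, hs'⟩ := ih
      obtain ⟨s', hlt, hs''⟩ := hstep s (by omega) (by omega)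
      refine ⟨s', by omega, le_trans ?_ hs''⟩
      rw [pow_succ, mul_comm ((1 + ε) ^ k), mul_assoc]
      exact mul_le_mul_of_nonneg_left hs' (by linarith)
  have hpos : 0 < (a s₀ : ℝ) / (s₀ : ℝ) ^ n := by
    have h2 : (0 : ℝ) < a s₀ := by exact_mod_cast h1 s₀
    have h3 : (0 : ℝ) < s₀ := by rw [hs₀]; positivity
    positivity
  have hbd : ∀ s : ℕ, 1 ≤ s → (a s : ℝ) / (s : ℝ) ^ n ≤ C * 2 ^ n := by
    intro s hs
    have h3 : (0 : ℝ) < s := by exact_mod_cast hs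
    rw [div_le_iff₀ (by positivity), mul_assoc, ← mul_pow]
    refine le_trans (b := (C : ℝ) * ((s : ℝ) + 1) ^ n) (by exact_mod_cast hC s) ?_
    have : (1 : ℝ) ≤ s := by exact_mod_cast hs
    gcongr
    linarith
  obtain ⟨k, hk⟩ := pow_unbounded_of_one_lt (C * 2 ^ n / ((a s₀ : ℝ) / (s₀ : ℝ) ^ n))
    (by linarith : 1 < 1 + ε)
  obtain ⟨s, hs, hs'⟩ := hit k
  have := hbd s (by omega)
  rw [div_lt_iff₀ hpos] at hk
  linarith

end Pool.Agent.TAO.Num
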