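import Pool.Agent.Lib.JM_H15.Basic

/-!
# Valuations of a field with values in an ordered field
-/

set_option autoImplicit false

open Finset

namespace Pool.Agent.TAO

/-- A valuation of a field `K` with values in an ordered field `𝕂`, given by its values on the
nonzero elements (the value at `0` is irrelevant). -/
structure OVal (𝕂 : Type*) [Field 𝕂] [LinearOrder 𝕂] [IsStrictOrderedRing 𝕂] (K : Type*)
    [Field K] where
  /-- the function -/
  toFun : K → 𝕂
  map_mul' : ∀ x y, x ≠ 0 → y ≠ 0 → toFun (x * y) = toFun x + toFun y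
  map_add' : ∀ x y, x ≠ 0 → y ≠ 0 → x + y ≠ 0 → min (toFun x) (toFun y) ≤ toFun (x + y)

instance {𝕂 : Type*} [Field 𝕂] [LinearOrder 𝕂] [IsStrictOrderedRing 𝕂] {K : Type*} [Field K] :
    CoeFun (OVal 𝕂 K) fun _ => K → 𝕂 := ⟨OVal.toFun⟩

/-- A real valuation. -/
def ofR {K : Type*} [Field K] (v : H15JM.RVal K) : OVal ℝ K := ⟨v.toFun, v.map_mul', v.map_add'⟩

theorem ofR_apply {K : Type*} [Field K] (v : H15JM.RVal K) (x : K) : ofR v x = v x := rfl

/-- A real valuation. -/
def toR {K : Type*} [Field K] (v : OVal ℝ K) : H15JM.RVal K := ⟨v.toFun, v.map_mul', v.map_add'⟩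

theorem toR_apply {K : Type*} [Field K] (v : OVal ℝ K) (x : K) : toR v x = v x := rfl

namespace OVal

variable {𝕂 : Type*} [Field 𝕂] [LinearOrder 𝕂] [IsStrictOrderedRing 𝕂]
  {K : Type*} [Field K] (v : OVal 𝕂 K)

theorem map_mul {x y : K} (hx : x ≠ 0) (hy : y ≠ 0) : v (x * y) = v x + v y :=
  v.map_mul' x y hx hy

theorem map_add {x y : K} (hx : x ≠ 0) (hy : y ≠ 0) (hxy : x + y ≠ 0) :
    min (v x) (v y) ≤ v (x + y) :=
  v.map_add' x y hx hy hxy

theorem map_one : v 1 = 0 := by
  have := v.map_mul (one_ne_zero (α := K)) one_ne_zero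
  rw [mul_one] at this
  linarith

theorem map_neg_one : v (-1) = 0 := by
  have h := v.map_mul (neg_ne_zero.mpr (one_ne_zero (α := K))) (neg_ne_zero.mpr one_ne_zero)
  rw [neg_mul_neg, mul_one, v.map_one] at h
  linarith

theorem map_neg (x : K) (hx : x ≠ 0) : v (-x) = v x := by
  have h := v.map_mul (neg_ne_zero.mpr (one_ne_zero (α := K))) hx
  rw [neg_one_mul, v.map_neg_one, zero_add] at h
  exact h

theorem map_inv {x : K} (hx : x ≠ 0) : v x⁻¹ = - v x := by
  have h := v.map_mul hx (inv_ne_zero hx)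
  rw [mul_inv_cancel₀ hx, v.map_one] at h
  linarith

theorem map_div {x y : K} (hx : x ≠ 0) (hy : y ≠ 0) : v (x / y) = v x - v y := by
  rw [div_eq_mul_inv, v.map_mul hx (inv_ne_zero hy), v.map_inv hy, sub_eq_add_neg]

theorem map_pow {x : K} (hx : x ≠ 0) (m : ℕ) : v (x ^ m) = m * v x := by
  induction m with
  | zero => simp [v.map_one]
  | succ m ih =>
    rw [pow_succ, v.map_mul (pow_ne_zero m hx) hx, ih]
    push_cast
    ring

theorem map_zpow {x : K} (hx : x ≠ 0) (m : ℤ) : v (x ^ m) = m * v x := by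
  cases m with
  | ofNat m => simp [v.map_pow hx]
  | negSucc m =>
    rw [zpow_negSucc, v.map_inv (pow_ne_zero _ hx), v.map_pow hx]
    push_cast
    ring

theorem map_prod {ι : Type*} (s : Finset ι) (f : ι → K) (hf : ∀ i ∈ s, f i ≠ 0) :
    v (∏ i ∈ s, f i) = ∑ i ∈ s, v (f i) := by
  classical
  induction s using Finset.induction_on with
  | empty => simp [v.map_one]
  | insert a s ha ih =>
    rw [Finset.prod_insert ha, Finset.sum_insert ha,
      v.map_mul (hf a (Finset.mem_insert_self a s))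
        (Finset.prod_ne_zero_iff.mpr fun i hi => hf i (Finset.mem_insert_of_mem hi)),
      ih fun i hi => hf i (Finset.mem_insert_of_mem hi)]

/-- If `v x < v y` then `x + y` is not zero and has value `v x`. -/
theorem add_of_lt {x y : K} (hx : x ≠ 0) (hy : y ≠ 0) (h : v x < v y) :
    x + y ≠ 0 ∧ v (x + y) = v x := by
  have hne : x + y ≠ 0 := by
    intro h0
    rw [eq_neg_of_add_eq_zero_left h0, v.map_neg y hy] at h
    exact lt_irrefl _ h
  refine ⟨hne, le_antisymm ?_ ?_⟩
  · by_contra hcon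
    push Not at hcon
    have h1 := v.map_add hne (neg_ne_zero.mpr hy) (by simpa using hx)
    rw [v.map_neg y hy, add_neg_cancel_right] at h1
    have : v x < min (v (x + y)) (v y) := lt_min hcon h
    linarith
  · have := v.map_add hx hy hne
    rwa [min_eq_left h.le] at this

/-- `v.Ge c x` means that `x` is zero or has value at least `c`. -/
def Ge (c : 𝕂) (x : K) : Prop := x ≠ 0 → c ≤ v x

variable {v}

theorem Ge.zero {c : 𝕂} : v.Ge c 0 := fun h => absurd rfl h

theorem Ge.mono {c c' : 𝕂} (h : c' ≤ c) {x : K} (hx : v.Ge c x) : v.Ge c' x :=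
  fun h0 => h.trans (hx h0)

theorem Ge.add {c : 𝕂} {x y : K} (hx : v.Ge c x) (hy : v.Ge c y) : v.Ge c (x + y) := by
  intro hxy
  by_cases h1 : x = 0
  · subst h1
    rw [zero_add] at hxy ⊢
    exact hy hxy
  by_cases h2 : y = 0
  · subst h2
    rw [add_zero] at hxy ⊢
    exact hx hxy
  exact (le_min (hx h1) (hy h2)).trans (v.map_add h1 h2 hxy)

theorem Ge.neg {c : 𝕂} {x : K} (hx : v.Ge c x) : v.Ge c (-x) := by
  intro h
  have h' : x ≠ 0 := by simpa using h
  rw [v.map_neg x h']
  exact hx h'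

theorem Ge.sub {c : 𝕂} {x y : K} (hx : v.Ge c x) (hy : v.Ge c y) : v.Ge c (x - y) := by
  rw [sub_eq_add_neg]
  exact hx.add hy.neg

theorem Ge.mul {c d : 𝕂} {x y : K} (hx : v.Ge c x) (hy : v.Ge d y) : v.Ge (c + d) (x * y) := by
  intro h
  have h1 := left_ne_zero_of_mul h
  have h2 := right_ne_zero_of_mul h
  rw [v.map_mul h1 h2]
  exact add_le_add (hx h1) (hy h2)

theorem Ge.sum {ι : Type*} {c : 𝕂} (s : Finset ι) (f : ι → K) (hf : ∀ i ∈ s, v.Ge c (f i)) :
    v.Ge c (∑ i ∈ s, f i) := by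
  classical
  induction s using Finset.induction_on with
  | empty => simpa using Ge.zero
  | insert a s ha ih =>
    rw [Finset.sum_insert ha]
    exact (hf a (Finset.mem_insert_self a s)).add (ih fun i hi => hf i (Finset.mem_insert_of_mem hi))

theorem Ge.prod {ι : Type*} (c : ι → 𝕂) (s : Finset ι) (f : ι → K)
    (hf : ∀ i ∈ s, v.Ge (c i) (f i)) : v.Ge (∑ i ∈ s, c i) (∏ i ∈ s, f i) := by
  classical
  induction s using Finset.induction_on with
  | empty =>
    intro _
    simp [v.map_one]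
  | insert a s ha ih =>
    rw [Finset.sum_insert ha, Finset.prod_insert ha]
    exact (hf a (Finset.mem_insert_self a s)).mul (ih fun i hi => hf i (Finset.mem_insert_of_mem hi))

theorem Ge.of_le {c : 𝕂} {x : K} (h : c ≤ v x) : v.Ge c x := fun _ => h

theorem ge_self (x : K) : v.Ge (v x) x := fun _ => le_rfl

end OVal

universe u w

section Setting

variable {k Ω : Type u} [Field k] [Field Ω] [Algebra k Ω] {𝕂 : Type w} [Field 𝕂] [LinearOrder 𝕂]
  [IsStrictOrderedRing 𝕂]

/-- `f` is zero or has positive value. -/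
def VPos (v : OVal 𝕂 Ω) (f : Ω) : Prop := f ≠ 0 → 0 < v f

variable {v : OVal 𝕂 Ω}

theorem VPos.zero : VPos v (0 : Ω) := fun h => absurd rfl h

theorem VPos.ge {f : Ω} (h : VPos v f) : v.Ge 0 f := fun h0 => (h h0).le

theorem VPos.add {f g : Ω} (hf : VPos v f) (hg : VPos v g) : VPos v (f + g) := by
  intro h
  by_cases h1 : f = 0
  · subst h1; rw [zero_add] at h ⊢; exact hg h
  by_cases h2 : g = 0
  · subst h2; rw [add_zero] at h ⊢; exact hf h
  exact lt_of_lt_of_le (lt_min (hf h1) (hg h2)) (v.map_add h1 h2 h)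

theorem VPos.neg {f : Ω} (hf : VPos v f) : VPos v (-f) := by
  intro h
  have h' : f ≠ 0 := by simpa using h
  rw [v.map_neg f h']; exact hf h'

theorem VPos.sub {f g : Ω} (hf : VPos v f) (hg : VPos v g) : VPos v (f - g) := by
  rw [sub_eq_add_neg]; exact hf.add hg.neg

theorem VPos.mul {f g : Ω} (hf : VPos v f) (hg : v.Ge 0 g) : VPos v (f * g) := by
  intro h
  have h1 := left_ne_zero_of_mul h
  have h2 := right_ne_zero_of_mul h
  rw [v.map_mul h1 h2]
  exact add_pos_of_pos_of_nonneg (hf h1) (hg h2)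

theorem VPos.mul' {f g : Ω} (hf : v.Ge 0 f) (hg : VPos v g) : VPos v (f * g) := by
  rw [mul_comm]; exact hg.mul hf

/-- A unit of value `0` plus something of positive value has value `0`. -/
theorem val_add_vpos {f g : Ω} (hf : f ≠ 0) (hv : v f = 0) (hg : VPos v g) :
    f + g ≠ 0 ∧ v (f + g) = 0 := by
  by_cases h2 : g = 0
  · subst h2; rw [add_zero]; exact ⟨hf, hv⟩
  have := v.add_of_lt hf h2 (by rw [hv]; exact hg h2)
  exact ⟨this.1, this.2.trans hv⟩


/-- `v` is trivial on `k` and has residue field `k`, and `Ω` has transcendence degree `n`. -/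
structure Ctx0 (k : Type u) {Ω : Type u} [Field k] [Field Ω] [Algebra k Ω] {𝕂 : Type w} [Field 𝕂]
    [LinearOrder 𝕂] [IsStrictOrderedRing 𝕂] (v : OVal 𝕂 Ω) (n : ℕ) : Prop where
  triv : ∀ c : k, c ≠ 0 → v (algebraMap k Ω c) = 0
  res : ∀ g : Ω, g ≠ 0 → v g = 0 → ∃ c : k, c ≠ 0 ∧ VPos v (g - algebraMap k Ω c)
  trdeg : Algebra.trdeg k Ω = n

/-- The decomposition group. -/
def decG (v : OVal 𝕂 Ω) (F : IntermediateField k Ω) (N : IntermediateField F Ω) :
    Subgroup (N ≃ₐ[F] N) where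
  carrier := {σ | ∀ n : N, v (σ n : Ω) = v (n : Ω)}
  mul_mem' := by
    intro a b ha hb n
    rw [AlgEquiv.mul_apply, ha, hb]
  one_mem' := fun _ => rfl
  inv_mem' := by
    intro a ha n
    have h := ha (a⁻¹ n)
    rw [← AlgEquiv.mul_apply, mul_inv_cancel, AlgEquiv.one_apply] at h
    exact h.symm

end Setting

end Pool.Agent.TAO
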