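import Pool.Agent.Lib.TAO.ChoiceY

/-!
# Zariski's main theorem at a point where `(x, y)` is a parameter ideal
-/

set_option autoImplicit false

namespace Pool.Agent.TAO

open Submodule Module
open Pool.Agent.ALB

section

variable {k A : Type*} [Field k] [CommRing A] [Algebra k A]

/-- `A / m^(s+1)` is finite-dimensional if `A = k + m` and `m` is finitely generated: a
finite-dimensional subspace surjects. -/
theorem exists_fd_sup (m : Ideal A) (hfg : m.FG) (hres : ∀ a : A, ∃ c : k, a - algebraMap k A c ∈ m)
    (s : ℕ) : ∃ V : Submodule k A, FiniteDimensional k V ∧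
      ∀ a : A, ∃ b ∈ V, a - b ∈ m ^ (s + 1) := by
  classical
  obtain ⟨S, hS⟩ := hfg
  let W : Submodule k A := span k (S : Set A)
  have hfin : FiniteDimensional k W := FiniteDimensional.span_of_finite k S.finite_toSet
  have hWm : W * ⊤ ≤ m.restrictScalars k := by
    rw [Submodule.mul_le]
    intro a ha b _
    have h1 : W ≤ m.restrictScalars k := by
      rw [span_le]
      intro x hx
      change x ∈ m
      rw [← hS]
      exact Ideal.subset_span hx
    exact m.mul_mem_right b (h1 ha)
  have hmW : m.restrictScalars k ≤ W * ⊤ := by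
    intro a ha
    have h1 : a ∈ Ideal.span (S : Set A) := by
      rw [hS]; exact ha
    clear ha
    induction h1 using Submodule.span_induction with
    | mem x hx =>
      have : x = x * 1 := (mul_one x).symm
      rw [this]
      exact Submodule.mul_mem_mul (subset_span hx) trivial
    | zero => exact Submodule.zero_mem _
    | add x y _ _ hx hy => exact Submodule.add_mem _ hx hy
    | smul e x _ hx =>
      rw [smul_eq_mul]
      have he : e ∈ (⊤ : Submodule k A) := trivial
      have h2 := Submodule.mul_mem_mul he hx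
      rw [mul_left_comm] at h2
      have h4 : W * (⊤ * (⊤ : Submodule k A)) ≤ W * ⊤ := mul_le_mul' le_rfl le_top
      exact h4 h2
  have htop : (⊤ : Submodule k A) ≤ 1 ⊔ (⊥ : Submodule k A) * ⊤ ⊔ W * ⊤ := by
    intro a _
    obtain ⟨c, hc⟩ := hres a
    rw [Submodule.bot_mul, sup_bot_eq]
    have h1 : a = algebraMap k A c + (a - algebraMap k A c) := by ring
    rw [h1]
    exact Submodule.add_mem_sup (Submodule.algebraMap_mem c) (hmW hc)
  have hpow : ∀ t : ℕ, W ^ t * ⊤ ≤ (m ^ t).restrictScalars k := by
    intro t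
    induction t with
    | zero => simp
    | succ t ih =>
      rw [pow_succ', mul_assoc, Submodule.mul_le]
      intro a ha b hb
      have h1 : b ∈ m ^ t := ih hb
      have h2 : a ∈ m := by
        have h3 : a * 1 ∈ W * (⊤ : Submodule k A) := Submodule.mul_mem_mul ha trivial
        rw [mul_one] at h3
        exact hWm h3
      change a * b ∈ m ^ (t + 1)
      rw [pow_succ']
      exact Ideal.mul_mem_mul h2 h1
  refine ⟨(1 ⊔ W) ^ s, finite_one_sup_pow W s, fun a => ?_⟩
  have ha : a ∈ (⊤ : Submodule k A) := trivial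
  have h1 := le_one_sup_Jf htop le_top le_top s ha
  obtain ⟨b, hb, c, hc, hbc⟩ := Submodule.mem_sup.1 h1
  refine ⟨b, hb, ?_⟩
  rw [Jf, Submodule.bot_mul, bot_sup_eq] at hc
  have h2 : a - b = c := by rw [← hbc]; ring
  rw [h2]
  exact hpow (s + 1) hc

end

section

variable {k O A : Type*} [Field k] [CommRing O] [CommRing A] [Algebra k O] [Algebra k A]
  [Algebra O A] [IsScalarTower k O A] [Algebra.FiniteType k A]

theorem zmt_centre (m : Ideal A) [hm : m.IsMaximal]
    (hres : ∀ a : A, ∃ c : k, a - algebraMap k A c ∈ m) (s : ℕ)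
    (hnil : m ^ (s + 1) ≤ (m.under O).map (algebraMap O A) ⊔ m ^ (s + 2)) :
    ∃ h : A, h ∉ m ∧ IsIntegral O h ∧ ∀ g : A, ∃ e : ℕ, IsIntegral O (h ^ e * g) := by
  have hnoeth : IsNoetherianRing A := Algebra.FiniteType.isNoetherianRing k A
  have hft : Algebra.FiniteType O A := Algebra.FiniteType.of_restrictScalars_finiteType k O A
  suffices hw : Algebra.WeaklyQuasiFiniteAt O m by
    have h1 := Algebra.ZariskisMainProperty.of_finiteType_of_weaklyQuasiFiniteAt (R := O) m
    exact Algebra.zariskisMainProperty_iff.mp h1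
  rw [Algebra.weaklyQuasiFiniteAt_iff]
  set L := Localization.AtPrime m with hL
  set J : Ideal L := (m.under O).map (algebraMap O L) with hJ
  set M : Ideal L := m.map (algebraMap A L) with hM
  have hMmax : M = IsLocalRing.maximalIdeal L := Localization.AtPrime.map_eq_maximalIdeal
  have hLn : IsNoetherianRing L := IsLocalization.isNoetherianRing m.primeCompl L hnoeth
  -- Nakayama
  have hMJ : M ^ (s + 1) ≤ J := by
    have h1 : M ^ (s + 1) ≤ J ⊔ M • M ^ (s + 1) := by
      have h2 := Ideal.map_mono (f := algebraMap A L) hnil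
      rw [Ideal.map_sup, Ideal.map_pow, Ideal.map_pow, Ideal.map_map,
        ← IsScalarTower.algebraMap_eq O A L] at h2
      rw [smul_eq_mul, ← pow_succ']
      exact h2
    refine Submodule.le_of_le_smul_of_le_jacobson_bot (IsNoetherian.noetherian _) ?_ h1
    rw [hMmax, IsLocalRing.jacobson_eq_maximalIdeal _ bot_ne_top]
  obtain ⟨V, hV, hVs⟩ := exists_fd_sup m (IsNoetherian.noetherian m) hres s
  -- `V` surjects to `L / J`
  have hsurj : ∀ z : L, ∃ b ∈ V, z - algebraMap A L b ∈ J := by
    intro z
    obtain ⟨a, t, rfl⟩ := IsLocalization.exists_mk'_eq m.primeCompl z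
    -- an inverse of `t` modulo `m^(s+1)`
    obtain ⟨c, hc⟩ : ∃ c : A, 1 - (t : A) * c ∈ m ^ (s + 1) := by
      have h1 : IsCoprime m (Ideal.span {(t : A)}) := by
        rw [Ideal.isCoprime_iff_sup_eq]
        refine hm.1.2 _ (lt_of_le_of_ne le_sup_left ?_)
        intro h
        have h2 : (t : A) ∈ m ⊔ Ideal.span {(t : A)} :=
          Ideal.mem_sup_right (Ideal.mem_span_singleton_self _)
        have h4 : m ⊔ Ideal.span {(t : A)} ≤ m := h.symm.le
        exact t.2 (h4 h2)
      have h2 := h1.pow_left (m := s + 1)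
      rw [Ideal.isCoprime_iff_exists] at h2
      obtain ⟨p, hp, q, hq, hpq⟩ := h2
      obtain ⟨c, rfl⟩ := Ideal.mem_span_singleton'.1 hq
      refine ⟨c, ?_⟩
      have h3 : 1 - (t : A) * c = p := by rw [← hpq]; ring
      rw [h3]
      exact hp
    obtain ⟨b, hb, hb'⟩ := hVs (a * c)
    refine ⟨b, hb, ?_⟩
    have h1 : IsLocalization.mk' L a t - algebraMap A L b =
        IsLocalization.mk' L a t * algebraMap A L (1 - (t : A) * c) +
          algebraMap A L (a * c - b) := by
      have h2 : IsLocalization.mk' L a t * algebraMap A L (t : A) = algebraMap A L a :=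
        IsLocalization.mk'_spec L a t
      rw [map_sub, map_sub, map_mul, map_mul, map_one, mul_sub, mul_one, ← mul_assoc, h2]
      ring
    rw [h1]
    have h3 : ∀ w ∈ m ^ (s + 1), algebraMap A L w ∈ J := by
      intro w hw
      refine hMJ ?_
      rw [hM, ← Ideal.map_pow]
      exact Ideal.mem_map_of_mem _ hw
    exact J.add_mem (J.mul_mem_left _ (h3 _ hc)) (h3 _ hb')
  let f : V →ₗ[k] (L ⧸ J) :=
    ((Ideal.Quotient.mkₐ k J).toLinearMap.comp (IsScalarTower.toAlgHom k A L).toLinearMap).comp
      V.subtype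
  have hfin : Module.Finite k (L ⧸ J) := by
    refine Module.Finite.of_surjective f ?_
    intro q
    obtain ⟨z, rfl⟩ := Ideal.Quotient.mk_surjective q
    obtain ⟨b, hb, hbz⟩ := hsurj z
    refine ⟨⟨b, hb⟩, ?_⟩
    change Ideal.Quotient.mk J (algebraMap A L b) = Ideal.Quotient.mk J z
    rw [Ideal.Quotient.eq]
    have : algebraMap A L b - z = -(z - algebraMap A L b) := by ring
    rw [this]
    exact J.neg_mem hbz
  have hfinO : Module.Finite O (L ⧸ J) := Module.Finite.of_restrictScalars_finite k O _
  infer_instance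

end

end Pool.Agent.TAO
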