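import Pool.Agent.Lib.TAO.CentreA
import Pool.Agent.Lib.TAO.ZMT

/-!
# TA6a: the weighted order, extended with the right centre
-/

set_option autoImplicit false

namespace Pool.Agent.TAO


open Pool.Agent.LU1 (fixO mem_fixO)
open Submodule Module

universe u w

variable {k Ω : Type u} [Field k] [Field Ω] [Algebra k Ω] {𝕂 : Type w} [Field 𝕂] [LinearOrder 𝕂] [IsStrictOrderedRing 𝕂] {v : OVal 𝕂 Ω} {n r D : ℕ}
  {ι : Type} [Fintype ι]

omit [Fintype ι] in
/-- `A ⊆ O_v`. -/
theorem ge_Ax (h : Ctx0 k v n) {x : Fin r → Ω} {b : ι → Ω} (hx : ∀ i, 0 < v (x i))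
    (hb0 : ∀ j, b j ≠ 0) (hb : ∀ j, VPos v (b j - 1)) {g : Ω} (hg : g ∈ Ax k x b) : v.Ge 0 g := by
  have hvb : ∀ j, v (b j) = 0 := by
    intro j
    have h1 := val_add_vpos (v := v) one_ne_zero v.map_one (hb j)
    rw [add_sub_cancel] at h1
    exact h1.2
  induction hg using Algebra.adjoin_induction with
  | mem g hg =>
    rcases hg with ⟨i, rfl⟩ | ⟨j, rfl⟩ | ⟨j, rfl⟩
    · exact fun _ => (hx i).le
    · exact fun _ => (hvb j).ge
    · intro _
      rw [v.map_inv (hb0 j), hvb j, neg_zero]
  | algebraMap c =>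
    intro h0
    have : c ≠ 0 := by rintro rfl; simp at h0
    rw [h.triv c this]
  | add a c _ _ ha hc => exact ha.add hc
  | mul a c _ _ ha hc =>
    have := ha.mul hc
    rwa [add_zero] at this

theorem isFractionRing_toAdj {σ : Type*} {u : σ → Ω} (hi : AlgebraicIndependent k u)
    (F : IntermediateField k Ω) (hu : ∀ i, u i ∈ F)
    (hF : F = IntermediateField.adjoin k (Set.range u)) :
    let := (toAdj (k := k) u F hu).toRingHom.toAlgebra
    IsFractionRing (MvPolynomial σ k) F := by
  let := (toAdj (k := k) u F hu).toRingHom.toAlgebra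
  have hinj := toAdj_injective hi F hu
  have halg : ∀ P : MvPolynomial σ k, algebraMap (MvPolynomial σ k) F P = toAdj u F hu P :=
    fun _ => rfl
  refine ⟨?_, ?_, ?_⟩
  · rintro ⟨P, hP⟩
    have h1 : toAdj u F hu P ≠ 0 := by
      intro h0
      exact nonZeroDivisors.ne_zero hP (hinj (by rw [h0, map_zero]))
    exact isUnit_iff_ne_zero.2 h1
  · intro z
    obtain ⟨a, b, hb, hz⟩ := exists_frac u F hu hF z
    refine ⟨(a, ⟨b, ?_⟩), ?_⟩
    · refine mem_nonZeroDivisors_of_ne_zero ?_
      rintro rfl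
      exact hb (map_zero _)
    · change z * toAdj u F hu b = toAdj u F hu a
      rw [hz, div_mul_cancel₀ _ hb]
  · intro a b hab
    exact ⟨1, by rw [hinj hab]⟩

/-- The constant coefficient decides the value. -/
theorem vpos_aeval_iff (htriv : ∀ c : k, c ≠ 0 → v (algebraMap k Ω c) = 0) {σ : Type*}
    (u : σ → Ω) (hu : ∀ i, VPos v (u i)) (P : MvPolynomial σ k) :
    v.Ge 0 (MvPolynomial.aeval u P) ∧
      VPos v (MvPolynomial.aeval u P - algebraMap k Ω (MvPolynomial.constantCoeff P)) := by
  have hc : ∀ c : k, v.Ge 0 (algebraMap k Ω c) := by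
    intro c h0
    have : c ≠ 0 := by rintro rfl; simp at h0
    rw [htriv c this]
  induction P using MvPolynomial.induction_on with
  | C a =>
    rw [MvPolynomial.constantCoeff_C, MvPolynomial.algHom_C, sub_self]
    exact ⟨hc a, VPos.zero⟩
  | add P Q hP hQ =>
    rw [map_add, map_add, map_add]
    refine ⟨hP.1.add hQ.1, ?_⟩
    have h1 : (MvPolynomial.aeval u P : Ω) + MvPolynomial.aeval u Q -
        (algebraMap k Ω (MvPolynomial.constantCoeff P) +
          algebraMap k Ω (MvPolynomial.constantCoeff Q)) =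
        (MvPolynomial.aeval u P - algebraMap k Ω (MvPolynomial.constantCoeff P)) +
        (MvPolynomial.aeval u Q - algebraMap k Ω (MvPolynomial.constantCoeff Q)) := by ring
    rw [h1]
    exact hP.2.add hQ.2
  | mul_X P i hP =>
    rw [map_mul, map_mul, MvPolynomial.aeval_X, MvPolynomial.constantCoeff_X, mul_zero,
      map_zero, sub_zero]
    have h1 : VPos v (MvPolynomial.aeval u P * u i) := VPos.mul' hP.1 (hu i)
    exact ⟨h1.ge, h1⟩

/-- TA6a: the weighted order, extended with the right centre. -/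
theorem exists_omega (h : Ctx0 k v n) [IsAlgClosed k] (hn : n = r + D)
    (E : IntermediateField k Ω) (halg : ∀ g : Ω, IsAlgebraic E g)
    (T : TD k v r ι) (hpos : ∀ i, 0 < v (T.x i))
    (hE : IntermediateField.adjoin k (Set.range T.x ∪ Set.range T.b) = E)
    (y : Fin D → Ω) (s₀ : ℕ) (hy : ∀ j, y j ∈ Wb k T.b)
    (hrel : Wb k T.b ^ (s₀ + 1) ≤ span k (Set.range y) * Wb k T.b ^ s₀ ⊔ XA k T.x T.b ⊔
        Wb k T.b ^ (s₀ + 2) * (Ax k T.x T.b).toSubmodule)
    (F : IntermediateField k Ω) (hF : F = IntermediateField.adjoin k (Set.range T.x ∪ Set.range y))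
    (hsep : ∀ g ∈ E, IsSeparable F g)
    (N : IntermediateField F Ω) [FiniteDimensional F N] [IsGalois F N] (hEN : ∀ g ∈ E, g ∈ N)
    (M₀ : ℕ) (hM : 0 < M₀) :
    ∃ ω : OVal ℝ Ω, (∀ i, ω (T.x i) = M₀) ∧ (∀ j, y j ≠ 0 ∧ ω (y j) = 1) ∧
      (∀ c : k, c ≠ 0 → ω (algebraMap k Ω c) = 0) ∧
      (∀ P : MvPolynomial (Fin r ⊕ Fin D) k, P ≠ 0 →
        MvPolynomial.aeval (Sum.elim T.x y) P ≠ (0 : Ω) ∧ ∀ d ∈ P.support,
        ω (MvPolynomial.aeval (Sum.elim T.x y) P) ≤
          ((M₀ * ∑ i, d (Sum.inl i) + ∑ j, d (Sum.inr j) : ℕ) : ℝ)) ∧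
      (∀ σ ∈ decG v F N, ∀ g : N, (g : Ω) ∈ Ax k T.x T.b → ω.Ge 0 (σ g : Ω)) ∧
      (∀ σ ∈ decG v F N, ∀ g : N, (g : Ω) ∈ Ax k T.x T.b → VPos v (g : Ω) →
        VPos ω (σ g : Ω)) := by
  classical
  set A := Ax k T.x T.b with hA
  set u : Fin r ⊕ Fin D → Ω := Sum.elim T.x y with hu
  have hFu : F = IntermediateField.adjoin k (Set.range u) := by
    rw [hF, hu, Set.Sum.elim_range]
  have huF : ∀ i, u i ∈ F := fun i => by
    rw [hFu]; exact IntermediateField.subset_adjoin _ _ ⟨i, rfl⟩
  -- elements of `W` and `A`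
  have hWpos : ∀ w ∈ Wb k T.b, VPos v w := by
    intro w hw
    unfold Wb at hw
    induction hw using Submodule.span_induction with
    | mem w hw =>
      obtain ⟨j, rfl⟩ := hw
      exact T.b_res j
    | zero => exact VPos.zero
    | add a c _ _ ha hc => exact ha.add hc
    | smul e a _ ha =>
      rw [Algebra.smul_def]
      refine VPos.mul' ?_ ha
      intro h0
      have : e ≠ 0 := by rintro rfl; simp at h0
      rw [h.triv e this]
  have hAge : ∀ g ∈ A, v.Ge 0 g := fun g hg => ge_Ax h hpos T.b_ne T.b_res hg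
  have hWA : ∀ w ∈ Wb k T.b, w ∈ A := fun w hw => Wb_le_Ax₅ _ _ hw
  have hxA : ∀ i, T.x i ∈ A := fun i => x_mem_Ax₅ _ _ i
  have huA : ∀ i, u i ∈ A := by
    rintro (i | j)
    · exact hxA i
    · exact hWA _ (hy j)
  have hupos : ∀ i, VPos v (u i) := by
    rintro (i | j)
    · exact fun _ => hpos i
    · exact hWpos _ (hy j)
  have hAE : ∀ g ∈ A, g ∈ E := by
    intro g hg
    have h1 : A ≤ E.toSubalgebra := by
      refine Algebra.adjoin_le ?_
      rw [← hE]
      rintro z (⟨i, rfl⟩ | ⟨j, rfl⟩ | ⟨j, rfl⟩)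
      · exact IntermediateField.subset_adjoin _ _ (Or.inl ⟨i, rfl⟩)
      · exact IntermediateField.subset_adjoin _ _ (Or.inr ⟨j, rfl⟩)
      · change (T.b j)⁻¹ ∈ IntermediateField.adjoin k (Set.range T.x ∪ Set.range T.b)
        exact inv_mem (IntermediateField.subset_adjoin k (Set.range T.x ∪ Set.range T.b)
          (Or.inr ⟨j, rfl⟩))
    exact h1 hg
  -- `Ω` is algebraic over `F`, `N`
  have hFE : F ≤ E := by
    rw [hF, IntermediateField.adjoin_le_iff]
    rintro z (⟨i, rfl⟩ | ⟨j, rfl⟩)
    · exact hAE _ (hxA i)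
    · exact hAE _ (hWA _ (hy j))
  have halgF : ∀ g : Ω, IsAlgebraic F g := by
    let E1 : IntermediateField F Ω := IntermediateField.extendScalars hFE
    have h1 : Algebra.IsAlgebraic F E1 := by
      constructor
      intro z
      have h2 : IsSeparable F (z : Ω) := hsep z z.2
      have h3 : IsAlgebraic F (z : Ω) := h2.isIntegral.isAlgebraic
      exact IntermediateField.isAlgebraic_iff.2 h3
    have h2 : Algebra.IsAlgebraic E1 Ω := ⟨fun z => halg z⟩
    have h3 : Algebra.IsAlgebraic F Ω := Algebra.IsAlgebraic.trans F E1 Ω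
    exact fun g => h3.isAlgebraic g
  have halgN : ∀ g : Ω, IsAlgebraic N g := fun g => (halgF g).extendScalars
    (algebraMap F N).injective
  -- algebraic independence
  have hind : AlgebraicIndependent k u := by
    have h1 : Algebra.IsAlgebraic (Algebra.adjoin k (Set.range u)) Ω := by
      constructor
      intro x
      rw [← IntermediateField.isAlgebraic_adjoin_iff, ← hFu]
      exact halgF x
    refine (Algebra.IsAlgebraic.isTranscendenceBasis_of_lift_le_trdeg_of_finite k u ?_).1
    rw [h.trdeg, hn]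
    simp
  -- the weighted order
  let wt : Fin r ⊕ Fin D → ℕ := Sum.elim (fun _ => M₀) (fun _ => 1)
  obtain ⟨ω₀, hω₀⟩ := exists_weighted hind F huF hFu wt
  -- algebra structures
  let O := MvPolynomial (Fin r ⊕ Fin D) k
  let algOF : Algebra O F := (toAdj (k := k) u F huF).toRingHom.toAlgebra
  let algON : Algebra O N := ((algebraMap F N).comp (algebraMap O F)).toAlgebra
  have htow : IsScalarTower O F N := IsScalarTower.of_algebraMap_eq fun _ => rfl
  have hfr : IsFractionRing O F := isFractionRing_toAdj hind F huF hFu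
  have hOF : ∀ P : O, ((algebraMap O F P : F) : Ω) = MvPolynomial.aeval u P := fun P =>
    coe_toAdj u F huF P
  have hne : ∀ P : O, P ≠ 0 → MvPolynomial.aeval u P ≠ (0 : Ω) := fun P hP h0 =>
    hP (hind (by rw [h0, map_zero]))
  have hconst : ∀ P : O, P ≠ 0 → (0 < v (MvPolynomial.aeval u P) ↔
      MvPolynomial.constantCoeff P = 0) := by
    intro P hP
    have h1 := vpos_aeval_iff h.triv u hupos P
    constructor
    · intro h2
      by_contra h3
      have h4 : algebraMap k Ω (MvPolynomial.constantCoeff P) ≠ 0 := by simpa using h3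
      have h5 : VPos v (MvPolynomial.aeval u P - (MvPolynomial.aeval u P -
          algebraMap k Ω (MvPolynomial.constantCoeff P))) :=
        VPos.sub (fun _ => h2) h1.2
      rw [sub_sub_cancel] at h5
      have h6 := h5 h4
      rw [h.triv _ h3] at h6
      exact lt_irrefl _ h6
    · intro h2
      have h3 := h1.2
      rw [h2, map_zero, sub_zero] at h3
      exact h3 (hne P hP)
  have hwt0 : ∀ P : O, P ≠ 0 → (0 < wo wt P ↔ MvPolynomial.constantCoeff P = 0) := by
    intro P hP
    constructor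
    · intro h2
      by_contra h3
      have h4 : (0 : Fin r ⊕ Fin D →₀ ℕ) ∈ P.support := by
        rw [MvPolynomial.mem_support_iff]
        exact h3
      have h5 := wo_le wt h4
      rw [map_zero] at h5
      omega
    · intro h2
      obtain ⟨d, hd, hd'⟩ := exists_wo wt hP
      rw [← hd']
      have hd0 : d ≠ 0 := by
        rintro rfl
        rw [MvPolynomial.mem_support_iff] at hd
        exact hd h2
      obtain ⟨i, hi⟩ := Finsupp.ne_iff.1 hd0
      have h3 : 0 < wt i := by
        rcases i with i | j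
        · exact hM
        · exact one_pos
      have h4 : d i * wt i ≤ Finsupp.weight wt d := by
        rw [Finsupp.weight_apply, Finsupp.sum_fintype]
        · exact Finset.single_le_sum (f := fun j => d j • wt j) (fun _ _ => Nat.zero_le _)
            (Finset.mem_univ i)
        · simp
      have h5 : 0 < d i * wt i := Nat.mul_pos (Nat.pos_of_ne_zero hi) h3
      omega
  obtain ⟨ω, hω1, hω2⟩ := exists_centre F N halgN O v ω₀
    (fun P hP => by
      rw [hOF]
      exact (vpos_aeval_iff h.triv u hupos P).1 (hne P hP))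
    (fun P hP => by
      change 0 ≤ ω₀ (toAdj u F huF P)
      rw [hω₀ P hP]
      positivity)
    (fun P hP => by
      rw [hOF, hconst P hP]
      change _ ↔ 0 < ω₀ (toAdj u F huF P)
      rw [hω₀ P hP, ← hwt0 P hP]
      exact Nat.cast_pos.symm)
  have hωP : ∀ P : O, P ≠ 0 → ω (MvPolynomial.aeval u P) = wo wt P := by
    intro P hP
    have h1 : toAdj u F huF P ≠ 0 := by
      intro h0
      apply hne P hP
      rw [← coe_toAdj u F huF, h0]
      rfl
    have h2 := hω1 (toAdj u F huF P) h1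
    rw [coe_toAdj, hω₀ P hP] at h2
    exact h2
  have hωu : ∀ i, ω (u i) = wt i := by
    intro i
    have h1 := hωP (MvPolynomial.X i) (MvPolynomial.X_ne_zero i)
    rw [MvPolynomial.aeval_X, wo_X] at h1
    exact h1
  -- Zariski's main theorem
  let uA : Fin r ⊕ Fin D → A := fun i => ⟨u i, huA i⟩
  let algOA : Algebra O A := (MvPolynomial.aeval (R := k) uA).toRingHom.toAlgebra
  have htowA : IsScalarTower k O A := IsScalarTower.of_algebraMap_eq fun c => by
    change algebraMap k A c = MvPolynomial.aeval uA (algebraMap k O c)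
    rw [AlgHom.commutes]
  have hOA : ∀ P : O, ((algebraMap O A P : A) : Ω) = MvPolynomial.aeval u P := by
    intro P
    have h1 : (A.val.comp (MvPolynomial.aeval uA)) = MvPolynomial.aeval u := by
      apply MvPolynomial.algHom_ext
      intro i
      simp [uA]
    exact DFunLike.congr_fun h1 P
  have hftA : Algebra.FiniteType k A := by
    rw [← Subalgebra.fg_iff_finiteType, hA, Ax]
    exact Subalgebra.fg_def.2 ⟨_,
      ((Set.finite_range _).union ((Set.finite_range _).union (Set.finite_range _))), rfl⟩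
  let m : Ideal A :=
    { carrier := {g | VPos v (g : Ω)}
      zero_mem' := VPos.zero
      add_mem' := fun ha hb => VPos.add ha hb
      smul_mem' := fun a b hb => VPos.mul' (hAge a a.2) hb }
  have hmm : ∀ g : A, g ∈ m ↔ VPos v (g : Ω) := fun _ => Iff.rfl
  have hres : ∀ a : A, ∃ c : k, a - algebraMap k A c ∈ m := by
    intro a
    by_cases ha : VPos v (a : Ω)
    · refine ⟨0, ?_⟩
      rw [map_zero, sub_zero]
      exact ha
    · unfold VPos at ha
      push Not at ha
      obtain ⟨ha0, ha1⟩ := ha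
      have h1 : v (a : Ω) = 0 := le_antisymm ha1 (hAge a a.2 ha0)
      obtain ⟨c, -, hc⟩ := h.res (a : Ω) ha0 h1
      exact ⟨c, hc⟩
  have hmax : m.IsMaximal := by
    have h1 : (1 : A) ∉ m := by
      intro h2
      have h3 : VPos v (1 : Ω) := h2
      have h4 := h3 one_ne_zero
      rw [v.map_one] at h4
      exact lt_irrefl _ h4
    refine Ideal.isMaximal_iff.2 ⟨h1, ?_⟩
    intro J a hmJ ham haJ
    obtain ⟨c, hc⟩ := hres a
    have h2 : algebraMap k A c ∈ J := by
      have : algebraMap k A c = a - (a - algebraMap k A c) := by ring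
      rw [this]
      exact J.sub_mem haJ (hmJ hc)
    have hc0 : c ≠ 0 := by
      rintro rfl
      rw [map_zero, sub_zero] at hc
      exact ham hc
    have h3 := J.mul_mem_left (algebraMap k A c⁻¹) h2
    rwa [← map_mul, inv_mul_cancel₀ hc0, map_one] at h3
  -- the ideal `m` is `(x) + W A`
  let W' : Submodule k A := (Wb k T.b).comap A.val.toLinearMap
  let Q : Ideal A := (m.under O).map (algebraMap O A)
  have hunder : ∀ i, (MvPolynomial.X i : O) ∈ m.under O := by
    intro i
    rw [Ideal.under_def, Ideal.mem_comap, hmm, hOA, MvPolynomial.aeval_X]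
    exact hupos i
  have huQ : ∀ i, uA i ∈ Q := by
    intro i
    have h1 : uA i = algebraMap O A (MvPolynomial.X i) := by
      apply Subtype.ext
      rw [hOA, MvPolynomial.aeval_X]
    rw [h1]
    exact Ideal.mem_map_of_mem _ (hunder i)
  have hxQ : ∀ g : A, (g : Ω) ∈ XA k T.x T.b → g ∈ Q := by
    intro g hg
    have h1 : XA k T.x T.b ≤ (Q.restrictScalars k).map A.val.toLinearMap := by
      rw [XA, Submodule.mul_le]
      intro a ha c hc
      have h2 : span k (Set.range T.x) ≤ (Q.restrictScalars k).map A.val.toLinearMap := by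
        rw [span_le]
        rintro _ ⟨i, rfl⟩
        exact ⟨uA (Sum.inl i), huQ _, rfl⟩
      obtain ⟨a', ha', rfl⟩ := h2 ha
      exact ⟨a' * ⟨c, hc⟩, Q.mul_mem_right _ ha', rfl⟩
    obtain ⟨g', hg', hgg⟩ := h1 hg
    have h3 : g' = g := Subtype.ext hgg
    rw [← h3]
    exact hg'
  have hyQ : ∀ g : A, (g : Ω) ∈ span k (Set.range y) * Wb k T.b ^ s₀ → g ∈ Q := by
    intro g hg
    have hWs : Wb k T.b ^ s₀ ≤ Subalgebra.toSubmodule A := by
      have : ∀ t : ℕ, Wb k T.b ^ t ≤ Subalgebra.toSubmodule A := by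
        intro t
        induction t with
        | zero => rw [pow_zero, Submodule.one_le]; exact A.one_mem
        | succ t ih =>
          rw [pow_succ, Submodule.mul_le]
          exact fun a ha c hc => A.mul_mem (ih ha) (hWA c hc)
      exact this s₀
    have h1 : span k (Set.range y) * Wb k T.b ^ s₀ ≤
        (Q.restrictScalars k).map A.val.toLinearMap := by
      rw [Submodule.mul_le]
      intro a ha c hc
      have h2 : span k (Set.range y) ≤ (Q.restrictScalars k).map A.val.toLinearMap := by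
        rw [span_le]
        rintro _ ⟨j, rfl⟩
        exact ⟨uA (Sum.inr j), huQ _, rfl⟩
      obtain ⟨a', ha', rfl⟩ := h2 ha
      exact ⟨a' * ⟨c, hWs hc⟩, Q.mul_mem_right _ ha', rfl⟩
    obtain ⟨g', hg', hgg⟩ := h1 hg
    have h3 : g' = g := Subtype.ext hgg
    rw [← h3]
    exact hg'
  have hWm : ∀ g : A, (g : Ω) ∈ Wb k T.b → g ∈ m := fun g hg => hWpos _ hg
  -- powers of `W` times `A` lie in powers of `m`
  have hWpow : ∀ (t : ℕ) (g : A),
      (g : Ω) ∈ Wb k T.b ^ t * Subalgebra.toSubmodule A → g ∈ m ^ t := by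
    intro t
    have h1 : Wb k T.b ^ t * Subalgebra.toSubmodule A ≤
        ((m ^ t).restrictScalars k).map A.val.toLinearMap := by
      induction t with
      | zero =>
        rw [pow_zero, one_mul]
        intro g hg
        exact ⟨⟨g, hg⟩, by simp, rfl⟩
      | succ t ih =>
        rw [pow_succ', mul_assoc, Submodule.mul_le]
        intro a ha c hc
        obtain ⟨c', hc', rfl⟩ := ih hc
        refine ⟨⟨a, hWA a ha⟩ * c', ?_, rfl⟩
        change _ ∈ m ^ (t + 1)
        rw [pow_succ']
        exact Ideal.mul_mem_mul (hWm _ ha) hc'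
    intro g hg
    obtain ⟨g', hg', hgg⟩ := h1 hg
    have h3 : g' = g := Subtype.ext hgg
    rw [← h3]
    exact hg'
  have hmle : ∀ g ∈ m, ∃ a ∈ Q, ∃ c : A, (c : Ω) ∈ Wb k T.b * Subalgebra.toSubmodule A ∧
      g = a + c := by
    intro g hg
    obtain ⟨p, hp, c, hc, hpc⟩ := Submodule.mem_sup.1 (Ax_le' T.x T.b T.b_ne g.2)
    obtain ⟨e, he, a, ha, hea⟩ := Submodule.mem_sup.1 hp
    obtain ⟨e, rfl⟩ := Submodule.mem_one.1 he
    have haA : a ∈ A := (by
      have h1 : span k (Set.range T.x) * Subalgebra.toSubmodule A ≤ Subalgebra.toSubmodule A := by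
        rw [Submodule.mul_le]
        intro p hp q hq
        have h2 : span k (Set.range T.x) ≤ Subalgebra.toSubmodule A := by
          rw [span_le]
          rintro _ ⟨i, rfl⟩
          exact hxA i
        exact A.mul_mem (h2 hp) hq
      exact h1 ha)
    have hcA : c ∈ A := (by
      have h1 : Wb k T.b * Subalgebra.toSubmodule A ≤ Subalgebra.toSubmodule A := by
        rw [Submodule.mul_le]
        exact fun p hp q hq => A.mul_mem (hWA p hp) hq
      exact h1 hc)
    have haQ : (⟨a, haA⟩ : A) ∈ Q := hxQ _ ha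
    have ham : (⟨a, haA⟩ : A) ∈ m := (Ideal.map_le_iff_le_comap.2 le_rfl : Q ≤ m) haQ
    have hcm : (⟨c, hcA⟩ : A) ∈ m := by
      have h1 := hWpow 1 ⟨c, hcA⟩ (by rw [pow_one]; exact hc)
      rwa [pow_one] at h1
    have he0 : e = 0 := by
      by_contra he0
      have h1 : (algebraMap k A e) ∈ m := by
        have h2 : algebraMap k A e = g - ⟨a, haA⟩ - ⟨c, hcA⟩ := by
          apply Subtype.ext
          change algebraMap k Ω e = (g : Ω) - a - c
          rw [← hpc, ← hea]
          ring
        rw [h2]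
        exact m.sub_mem (m.sub_mem hg ham) hcm
      have h3 : VPos v (algebraMap k Ω e) := h1
      have h4 := h3 (by simpa using he0)
      rw [h.triv e he0] at h4
      exact lt_irrefl _ h4
    refine ⟨⟨a, haA⟩, haQ, ⟨c, hcA⟩, hc, ?_⟩
    apply Subtype.ext
    change (g : Ω) = a + c
    rw [← hpc, ← hea, he0, map_zero, zero_add]
  -- `m^(t+1) ⊆ Q + W^(t+1) A`
  have hmpow : ∀ (t : ℕ), ∀ g ∈ m ^ t, ∃ a ∈ Q, ∃ c : A,
      (c : Ω) ∈ Wb k T.b ^ t * Subalgebra.toSubmodule A ∧ g = a + c := by
    intro t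
    induction t with
    | zero =>
      intro g _
      exact ⟨0, Q.zero_mem, g, by rw [pow_zero, one_mul]; exact g.2, by rw [zero_add]⟩
    | succ t ih =>
      intro g hg
      rw [pow_succ'] at hg
      induction hg using Submodule.mul_induction_on' with
      | mem_mul_mem p hp q hq =>
        obtain ⟨a, ha, c, hc, rfl⟩ := hmle p hp
        obtain ⟨a', ha', c', hc', rfl⟩ := ih q hq
        refine ⟨a * (a' + c') + c * a', Q.add_mem (Q.mul_mem_right _ ha) (Q.mul_mem_left _ ha'),
          c * c', ?_, by ring⟩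
        have h1 := Submodule.mul_mem_mul hc hc'
        have h2 : (Wb k T.b * Subalgebra.toSubmodule A) *
            (Wb k T.b ^ t * Subalgebra.toSubmodule A) ≤
            Wb k T.b ^ (t + 1) * Subalgebra.toSubmodule A := by
          rw [mul_mul_mul_comm, ← pow_succ']
          exact mul_le_mul' le_rfl (Ax_mul_self₅ T.x T.b)
        exact h2 h1
      | add p _ q _ hp hq =>
        obtain ⟨a, ha, c, hc, rfl⟩ := hp
        obtain ⟨a', ha', c', hc', rfl⟩ := hq
        exact ⟨a + a', Q.add_mem ha ha', c + c', Submodule.add_mem _ hc hc', by ring⟩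
  have hnil : m ^ (s₀ + 1) ≤ Q ⊔ m ^ (s₀ + 2) := by
    intro g hg
    obtain ⟨a, ha, c, hc, rfl⟩ := hmpow (s₀ + 1) g hg
    refine Ideal.add_mem _ (Ideal.mem_sup_left ha) ?_
    -- `W^(s₀+1) A`
    have h1 : Wb k T.b ^ (s₀ + 1) * Subalgebra.toSubmodule A ≤
        ((Q ⊔ m ^ (s₀ + 2)).restrictScalars k).map A.val.toLinearMap := by
      rw [Submodule.mul_le]
      intro p hp q hq
      obtain ⟨p1, hp1, p2, hp2, rfl⟩ := Submodule.mem_sup.1 (hrel hp)
      obtain ⟨p3, hp3, p4, hp4, rfl⟩ := Submodule.mem_sup.1 hp1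
      -- all the pieces are in `A`
      have hp2A : p2 ∈ A := (by
        have h2 : Wb k T.b ^ (s₀ + 2) * Subalgebra.toSubmodule A ≤ Subalgebra.toSubmodule A := by
          have : ∀ t : ℕ, Wb k T.b ^ t * Subalgebra.toSubmodule A ≤ Subalgebra.toSubmodule A := by
            intro t
            induction t with
            | zero => rw [pow_zero, one_mul]
            | succ t ih =>
              rw [pow_succ', mul_assoc, Submodule.mul_le]
              exact fun a ha c hc => A.mul_mem (hWA a ha) (ih hc)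
          exact this _
        exact h2 hp2)
      have hp4A : p4 ∈ A := (by
        have h2 : XA k T.x T.b ≤ Subalgebra.toSubmodule A := by
          rw [XA, Submodule.mul_le]
          intro p hp q hq
          have h2 : span k (Set.range T.x) ≤ Subalgebra.toSubmodule A := by
            rw [span_le]
            rintro _ ⟨i, rfl⟩
            exact hxA i
          exact A.mul_mem (h2 hp) hq
        exact h2 hp4)
      have hp3A : p3 ∈ A := (by
        have h3 : ∀ t : ℕ, Wb k T.b ^ t ≤ Subalgebra.toSubmodule A := by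
          intro t
          induction t with
          | zero => rw [pow_zero, Submodule.one_le]; exact A.one_mem
          | succ t ih =>
            rw [pow_succ, Submodule.mul_le]
            exact fun a ha c hc => A.mul_mem (ih ha) (hWA c hc)
        have h2 : span k (Set.range y) * Wb k T.b ^ s₀ ≤ Subalgebra.toSubmodule A := by
          rw [Submodule.mul_le]
          intro p hp q hq
          have h4 : span k (Set.range y) ≤ Subalgebra.toSubmodule A := by
            rw [span_le]
            rintro _ ⟨i, rfl⟩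
            exact hWA _ (hy i)
          exact A.mul_mem (h4 hp) (h3 s₀ hq)
        exact h2 hp3)
      refine ⟨(⟨p3, hp3A⟩ + ⟨p4, hp4A⟩ + ⟨p2, hp2A⟩) * ⟨q, hq⟩, ?_, rfl⟩
      change _ ∈ Q ⊔ m ^ (s₀ + 2)
      refine Ideal.mul_mem_right _ _ ?_
      refine Ideal.add_mem _ (Ideal.add_mem _ ?_ ?_) ?_
      · exact Ideal.mem_sup_left (hyQ _ hp3)
      · exact Ideal.mem_sup_left (hxQ _ hp4)
      · exact Ideal.mem_sup_right (hWpow _ _ hp2)
    obtain ⟨g', hg', hgg⟩ := h1 hc
    have h3 : g' = c := Subtype.ext hgg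
    rw [← h3]
    exact hg'
  obtain ⟨h', hh'm, hh'int, hh'⟩ := zmt_centre (O := O) m hres s₀ hnil
  -- transport to `N`
  let ψ : A →+* N :=
    { toFun := fun g => ⟨(g : Ω), hEN _ (hAE _ g.2)⟩
      map_one' := rfl
      map_mul' := fun _ _ => rfl
      map_zero' := rfl
      map_add' := fun _ _ => rfl }
  have hψO : ∀ P : O, ψ (algebraMap O A P) = algebraMap O N P := by
    intro P
    apply Subtype.ext
    change ((algebraMap O A P : A) : Ω) = ((algebraMap O F P : F) : Ω)
    rw [hOA, hOF]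
  have hint : ∀ g : A, IsIntegral O g → IsIntegral O (ψ g) := by
    rintro g ⟨p, hp, hpg⟩
    refine ⟨p, hp, ?_⟩
    have h1 : algebraMap O N = ψ.comp (algebraMap O A) := RingHom.ext fun P => (hψO P).symm
    rw [h1, ← Polynomial.hom_eval₂, hpg, map_zero]
  have hσint : ∀ (σ : N ≃ₐ[F] N) (c : N), IsIntegral O c → IsIntegral O (σ c) := fun σ c hc =>
    hc.map (σ.toAlgHom.restrictScalars O)
  have hh'0 : (h' : Ω) ≠ 0 := by
    intro h0
    apply hh'm
    rw [hmm, h0]
    exact VPos.zero
  have hh'v : ¬ 0 < v (h' : Ω) := fun h1 => hh'm fun _ => h1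
  have hkey : ∀ σ ∈ decG v F N, ∀ g : N, (g : Ω) ∈ A → g ≠ 0 →
      0 ≤ ω (σ g : Ω) ∧ (0 < v (g : Ω) → 0 < ω (σ g : Ω)) := by
    intro σ hσ g hgA hg0
    have hσv : ∀ c : N, v (σ c : Ω) = v (c : Ω) := hσ
    obtain ⟨e, he⟩ := hh' ⟨g, hgA⟩
    have h1 : ψ (h' ^ e * ⟨g, hgA⟩) = ψ h' ^ e * g := by
      rw [map_mul, map_pow]
      rfl
    have h2 : IsIntegral O (σ (ψ h' ^ e * g)) := by
      rw [← h1]
      exact hσint σ _ (hint _ he)
    have h3 : IsIntegral O (σ (ψ h')) := hσint σ _ (hint _ hh'int)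
    have hψ0 : ψ h' ≠ 0 := fun h0 => hh'0 (congrArg (fun z : N => (z : Ω)) h0)
    have hσψ0 : σ (ψ h') ≠ 0 := by simpa using hψ0
    have hσg0 : σ g ≠ 0 := by simpa using hg0
    have hprod0 : σ (ψ h' ^ e * g) ≠ 0 := by
      rw [map_mul, map_pow]
      exact mul_ne_zero (pow_ne_zero _ hσψ0) hσg0
    obtain ⟨h4, h5⟩ := hω2 _ h2 hprod0
    obtain ⟨h6, h7⟩ := hω2 _ h3 hσψ0
    have h8 : ω (σ (ψ h') : Ω) = 0 := by
      refine le_antisymm ?_ h6
      by_contra h9
      push Not at h9
      have h10 := h7.2 h9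
      rw [hσv] at h10
      exact hh'v h10
    have h9 : ω ((σ (ψ h' ^ e * g) : N) : Ω) = ω (σ g : Ω) := by
      rw [map_mul, map_pow]
      change ω (((σ (ψ h') : N) : Ω) ^ e * ((σ g : N) : Ω)) = _
      have h10 : ((σ (ψ h') : N) : Ω) ≠ 0 := by simpa using hσψ0
      have h11 : ((σ g : N) : Ω) ≠ 0 := by simpa using hσg0
      rw [ω.map_mul (pow_ne_zero _ h10) h11, ω.map_pow h10, h8, mul_zero, zero_add]
    refine ⟨?_, ?_⟩
    · rw [← h9]; exact h4
    · intro h10
      rw [← h9]
      refine h5.1 ?_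
      rw [hσv]
      change 0 < v ((ψ h' : Ω) ^ e * (g : Ω))
      have h11 : (ψ h' : Ω) ≠ 0 := hh'0
      have h12 : (g : Ω) ≠ 0 := by simpa using hg0
      have h13 : 0 ≤ v (ψ h' : Ω) := hAge _ h'.2 hh'0
      rw [v.map_mul (pow_ne_zero _ h11) h12, v.map_pow h11]
      positivity
  refine ⟨ω, ?_, ?_, ?_, ?_, ?_, ?_⟩
  · intro i
    exact hωu (Sum.inl i)
  · intro j
    refine ⟨?_, ?_⟩
    · exact hind.ne_zero (Sum.inr j)
    · have := hωu (Sum.inr j)
      simpa [u, wt] using this
  · intro c hc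
    have h1 : (MvPolynomial.C c : O) ≠ 0 := by simpa using hc
    have h2 := hωP _ h1
    rw [MvPolynomial.algHom_C, wo_C wt hc, Nat.cast_zero] at h2
    exact h2
  · intro P hP
    refine ⟨hne P hP, fun d hd => ?_⟩
    rw [hωP P hP]
    have h1 := wo_le wt hd
    have h2 : Finsupp.weight wt d = M₀ * ∑ i, d (Sum.inl i) + ∑ j, d (Sum.inr j) := by
      rw [Finsupp.weight_apply, Finsupp.sum_fintype]
      · rw [Fintype.sum_sum_type]
        simp only [wt, Sum.elim_inl, Sum.elim_inr, smul_eq_mul, mul_one]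
        rw [Finset.mul_sum]
        congr 1
        exact Finset.sum_congr rfl fun i _ => mul_comm _ _
      · simp
    rw [← h2]
    exact_mod_cast h1
  · intro σ hσ g hg hg0
    have h1 : g ≠ 0 := by
      rintro rfl
      simp at hg0
    exact (hkey σ hσ g hg h1).1
  · intro σ hσ g hg hgv hg0
    have h1 : g ≠ 0 := by
      rintro rfl
      simp at hg0
    exact (hkey σ hσ g hg h1).2 (hgv (by simpa using h1))

end Pool.Agent.TAO
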